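import Mathlib

set_option autoImplicit false

namespace Pool.Agent.Helper55.Rota

open Finset

/-- a rank function of a matroid, on finite sets -/
structure RankFn (α : Type) [DecidableEq α] where
  r : Finset α → ℕ
  empty : r ∅ = 0
  mono : ∀ {X Y : Finset α}, X ⊆ Y → r X ≤ r Y
  insert_le : ∀ (X : Finset α) (x : α), r (insert x X) ≤ r X + 1
  submod : ∀ X Y : Finset α, r (X ∪ Y) + r (X ∩ Y) ≤ r X + r Y

variable {α : Type} [DecidableEq α]

namespace RankFn

lemma le_card (R : RankFn α) (X : Finset α) : R.r X ≤ X.card := by
  induction X using Finset.induction_on with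
  | empty => simp [R.empty]
  | insert x X hx ih =>
    rw [Finset.card_insert_of_notMem hx]
    exact (R.insert_le X x).trans (by omega)

/-- a subset of the right size -/
lemma union_le (R : RankFn α) (X Y : Finset α) : R.r (X ∪ Y) ≤ R.r X + R.r Y := by
  have := R.submod X Y
  omega

/-- the basic consequence of submodularity: if `X ⊆ V` then adding `Z` to `X` raises the rank at
least as much as adding `Z` to `V` -/
lemma add_gain (R : RankFn α) {X V : Finset α} (h : X ⊆ V) (Z : Finset α) :
    R.r (V ∪ Z) + R.r X ≤ R.r (X ∪ Z) + R.r V := by
  have h1 := R.submod (X ∪ Z) V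
  have h2 : (X ∪ Z) ∪ V = V ∪ Z := by
    ext a; simp only [mem_union]; constructor
    · rintro ((h3 | h3) | h3)
      · exact Or.inl (h h3)
      · exact Or.inr h3
      · exact Or.inl h3
    · rintro (h3 | h3)
      · exact Or.inr h3
      · exact Or.inl (Or.inr h3)
  have h3 : X ⊆ (X ∪ Z) ∩ V := by
    intro a ha; simp only [mem_inter, mem_union]; exact ⟨Or.inl ha, h ha⟩
  have h4 := R.mono h3
  rw [h2] at h1
  omega

lemma add_gain_insert (R : RankFn α) {X V : Finset α} (h : X ⊆ V) (z : α) :
    R.r (insert z V) + R.r X ≤ R.r (insert z X) + R.r V := by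
  have := R.add_gain h {z}
  have e1 : V ∪ {z} = insert z V := by rw [Finset.union_comm]; rfl
  have e2 : X ∪ {z} = insert z X := by rw [Finset.union_comm]; rfl
  rwa [e1, e2] at this

/-- if every element of `Z` is spanned by `V` then `V ∪ Z` has the rank of `V` -/
lemma union_of_span (R : RankFn α) (V Z : Finset α) (h : ∀ z ∈ Z, R.r (insert z V) ≤ R.r V) :
    R.r (V ∪ Z) ≤ R.r V := by
  induction Z using Finset.induction_on with
  | empty => simp
  | insert z Z hz ih =>
    have ih' := ih (fun w hw => h w (mem_insert_of_mem hw))
    have h1 := R.add_gain_insert (X := V) (V := V ∪ Z) subset_union_left z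
    have h2 := h z (mem_insert_self z Z)
    have h3 : V ∪ insert z Z = insert z (V ∪ Z) := by
      ext a; simp only [mem_union, mem_insert]; tauto
    rw [h3]
    have h4 := R.mono (subset_union_left : V ⊆ V ∪ Z)
    omega

/-- Rado's theorem -/
theorem rado {ι : Type} [DecidableEq ι] [Nonempty α] (R : RankFn α) (J₀ : Finset ι) :
    ∀ (n : ℕ) (A : ι → Finset α), (∑ j ∈ J₀, (A j).card = n) →
    (∀ J ⊆ J₀, J.card ≤ R.r (J.biUnion A)) →
    ∃ f : ι → α, (∀ j ∈ J₀, f j ∈ A j) ∧ J₀.card ≤ R.r (J₀.image f) := by
  intro n
  induction n using Nat.strong_induction_on with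
  | _ n ih =>
    intro A hn hA
    by_cases hsm : ∀ j ∈ J₀, (A j).card ≤ 1
    · have hne : ∀ j ∈ J₀, (A j).Nonempty := by
        intro j hj
        have h1 := hA {j} (by simpa using hj)
        rw [Finset.card_singleton, Finset.singleton_biUnion] at h1
        have h2 := R.le_card (A j)
        exact Finset.card_pos.mp (by omega)
      by_cases hJ : J₀.Nonempty
      · obtain ⟨j0, hj0⟩ := hJ
        obtain ⟨a0, _⟩ := hne j0 hj0
        have hex : ∀ j, ∃ a, j ∈ J₀ → A j = {a} := by
          intro j
          by_cases hj : j ∈ J₀
          · have h1 : (A j).card = 1 := le_antisymm (hsm j hj) (Finset.card_pos.mpr (hne j hj))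
            obtain ⟨a, ha⟩ := Finset.card_eq_one.mp h1
            exact ⟨a, fun _ => ha⟩
          · exact ⟨a0, fun h => absurd h hj⟩
        choose f hf using hex
        refine ⟨f, ?_, ?_⟩
        · intro j hj
          rw [hf j hj]; exact mem_singleton_self _
        · have h1 := hA J₀ (Finset.Subset.refl _)
          have h2 : J₀.biUnion A = J₀.image f := by
            ext a
            simp only [mem_biUnion, mem_image]
            constructor
            · rintro ⟨j, hj, ha⟩
              rw [hf j hj, mem_singleton] at ha
              exact ⟨j, hj, ha.symm⟩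
            · rintro ⟨j, hj, ha⟩
              exact ⟨j, hj, by rw [hf j hj, mem_singleton]; exact ha.symm⟩
          rw [h2] at h1
          exact h1
      · rw [Finset.not_nonempty_iff_eq_empty] at hJ
        subst hJ
        exact ⟨fun _ => Classical.arbitrary α, by simp, by simp⟩
    · push Not at hsm
      obtain ⟨i, hi, hi2⟩ := hsm
      obtain ⟨x, hx, y, hy, hxy⟩ := Finset.one_lt_card.mp hi2
      have hred : ∀ z ∈ A i, (∀ J ⊆ J₀, J.card ≤ R.r (J.biUnion (Function.update A i ((A i).erase z)))) →
          ∃ f : ι → α, (∀ j ∈ J₀, f j ∈ A j) ∧ J₀.card ≤ R.r (J₀.image f) := by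
        intro z hz hcond
        have hsum : ∑ j ∈ J₀, (Function.update A i ((A i).erase z) j).card < n := by
          rw [← hn]
          apply Finset.sum_lt_sum
          · intro j _
            by_cases hj : j = i
            · subst hj
              rw [Function.update_self]
              exact Finset.card_le_card (Finset.erase_subset _ _)
            · rw [Function.update_of_ne hj]
          · refine ⟨i, hi, ?_⟩
            rw [Function.update_self]
            exact Finset.card_erase_lt_of_mem hz
        obtain ⟨f, hf1, hf2⟩ := ih _ hsum _ rfl hcond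
        refine ⟨f, ?_, hf2⟩
        intro j hj
        have := hf1 j hj
        by_cases hj' : j = i
        · subst hj'
          rw [Function.update_self] at this
          exact Finset.mem_of_mem_erase this
        · rwa [Function.update_of_ne hj'] at this
      by_contra hcon
      have hfail : ∀ z ∈ A i, ∃ J1 : Finset ι, J1 ⊆ J₀ ∧ i ∉ J1 ∧
          R.r ((A i).erase z ∪ J1.biUnion A) ≤ J1.card := by
        intro z hz
        have h1 : ¬ ∀ J ⊆ J₀, J.card ≤ R.r (J.biUnion (Function.update A i ((A i).erase z))) :=
          fun h => hcon (hred z hz h)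
        push Not at h1
        obtain ⟨J, hJ, hJ2⟩ := h1
        by_cases hiJ : i ∈ J
        · refine ⟨J.erase i, (Finset.erase_subset _ _).trans hJ, Finset.notMem_erase _ _, ?_⟩
          have h2 : J.biUnion (Function.update A i ((A i).erase z))
              = (A i).erase z ∪ (J.erase i).biUnion A := by
            ext a
            simp only [mem_biUnion, mem_union]
            constructor
            · rintro ⟨j, hj, ha⟩
              by_cases hji : j = i
              · subst hji
                rw [Function.update_self] at ha
                exact Or.inl ha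
              · rw [Function.update_of_ne hji] at ha
                exact Or.inr ⟨j, Finset.mem_erase.mpr ⟨hji, hj⟩, ha⟩
            · rintro (ha | ⟨j, hj, ha⟩)
              · exact ⟨i, hiJ, by rw [Function.update_self]; exact ha⟩
              · rw [Finset.mem_erase] at hj
                exact ⟨j, hj.2, by rw [Function.update_of_ne hj.1]; exact ha⟩
          rw [h2] at hJ2
          have h3 := Finset.card_erase_add_one hiJ
          omega
        · exfalso
          have h2 : J.biUnion (Function.update A i ((A i).erase z)) = J.biUnion A := by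
            apply Finset.biUnion_congr rfl
            intro j hj
            have : j ≠ i := fun h => hiJ (h ▸ hj)
            rw [Function.update_of_ne this]
          rw [h2] at hJ2
          have := hA J hJ
          omega
      obtain ⟨J1, hJ1, hi1, hr1⟩ := hfail x hx
      obtain ⟨J2, hJ2, hi2', hr2⟩ := hfail y hy
      have hsub := R.submod ((A i).erase x ∪ J1.biUnion A) ((A i).erase y ∪ J2.biUnion A)
      have hU : (insert i (J1 ∪ J2)).biUnion A ⊆
          ((A i).erase x ∪ J1.biUnion A) ∪ ((A i).erase y ∪ J2.biUnion A) := by
        intro a ha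
        simp only [mem_biUnion, mem_insert, mem_union, mem_erase] at ha ⊢
        obtain ⟨j, hj, ha⟩ := ha
        rcases hj with rfl | hj | hj
        · by_cases hax : a = x
          · right; left; exact ⟨by rw [hax]; exact hxy, ha⟩
          · left; left; exact ⟨hax, ha⟩
        · left; right; exact ⟨j, hj, ha⟩
        · right; right; exact ⟨j, hj, ha⟩
      have hI : (J1 ∩ J2).biUnion A ⊆
          ((A i).erase x ∪ J1.biUnion A) ∩ ((A i).erase y ∪ J2.biUnion A) := by
        intro a ha
        simp only [mem_biUnion, mem_inter, mem_union] at ha ⊢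
        obtain ⟨j, hj, ha⟩ := ha
        exact ⟨Or.inr ⟨j, hj.1, ha⟩, Or.inr ⟨j, hj.2, ha⟩⟩
      have hU2 := R.mono hU
      have hI2 := R.mono hI
      have hU3 := hA (insert i (J1 ∪ J2)) (by
        intro j hj
        simp only [mem_insert, mem_union] at hj
        rcases hj with rfl | hj | hj
        · exact hi
        · exact hJ1 hj
        · exact hJ2 hj)
      have hI3 := hA (J1 ∩ J2) (fun j hj => hJ1 (Finset.mem_inter.mp hj).1)
      rw [Finset.card_insert_of_notMem (by simp [hi1, hi2'])] at hU3
      have hc := Finset.card_union_add_card_inter J1 J2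
      omega

end RankFn

end Pool.Agent.Helper55.Rota
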