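import Mathlib
import Pool.Agent.Helper55.RotaRado

set_option autoImplicit false

namespace Pool.Agent.Helper55.Rota

open Finset

/-- the abstract setting: ground set `E`, blocks given by `b`, rank `k` -/
structure Setting (α : Type) [DecidableEq α] (k : ℕ) extends RankFn α where
  E : Finset α
  b : α → Fin k
  P_card : ∀ j, (E.filter (fun x => b x = j)).card = k
  rE : r E = k
  dens : ∀ X ⊆ E, X.card ≤ k * r X
  girth : ∀ X ⊆ E, X.card + 2 ≤ k → X.card ≤ r X
  loopless : ∀ x ∈ E, 1 ≤ r {x}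

variable {α : Type} [DecidableEq α] {k : ℕ}

namespace Setting

/-- transversal bases -/
def TB (S : Setting α k) (T : Finset α) : Prop :=
  T ⊆ S.E ∧ T.card = k ∧ Set.InjOn S.b T ∧ S.r T = k

lemma r_le (S : Setting α k) {X : Finset α} (h : X ⊆ S.E) : S.r X ≤ k := by
  have h1 := S.mono h
  have h2 := S.rE
  omega

lemma girth_ge (S : Setting α k) {X : Finset α} (h : X ⊆ S.E) {c : ℕ} (hc : c + 2 ≤ k)
    (hX : c ≤ X.card) : c ≤ S.r X := by
  obtain ⟨Y, hY, hYc⟩ := Finset.exists_subset_card_eq hX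
  have := S.girth Y (hY.trans h) (by omega)
  have h2 := S.mono hY
  omega

/-- the criterion for transversals, from Rado's theorem -/
lemma crit [Nonempty α] (S : Setting α k) (J₀ : Finset (Fin k)) {W : Finset α} (hW : W ⊆ S.E)
    (hne : ∀ j ∈ J₀, ∃ x ∈ W, S.b x = j)
    (hbig : ∀ J ⊆ J₀, k ≤ J.card + 1 → J.card ≤ S.r (W.filter (fun x => S.b x ∈ J))) :
    ∃ Q ⊆ W, (∀ x ∈ Q, S.b x ∈ J₀) ∧ Q.card = J₀.card ∧ Set.InjOn S.b Q ∧ J₀.card ≤ S.r Q := by
  have hbi : ∀ J : Finset (Fin k), J.biUnion (fun j => W.filter (fun x => S.b x = j))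
      = W.filter (fun x => S.b x ∈ J) := by
    intro J
    ext a
    simp only [mem_biUnion, mem_filter]
    constructor
    · rintro ⟨j, hj, ha, hb⟩
      exact ⟨ha, hb ▸ hj⟩
    · rintro ⟨ha, hb⟩
      exact ⟨_, hb, ha, rfl⟩
  obtain ⟨f, hf1, hf2⟩ := S.toRankFn.rado J₀ _ (fun j => W.filter (fun x => S.b x = j)) rfl (by
    intro J hJ
    rw [hbi]
    by_cases hJk : k ≤ J.card + 1
    · exact hbig J hJ hJk
    · have hch : ∀ j, ∃ x, j ∈ J → x ∈ W ∧ S.b x = j := by
        intro j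
        by_cases hj : j ∈ J
        · obtain ⟨x, hx, hx2⟩ := hne j (hJ hj)
          exact ⟨x, fun _ => ⟨hx, hx2⟩⟩
        · exact ⟨Classical.arbitrary α, fun h => absurd h hj⟩
      choose g hg using hch
      have hginj : Set.InjOn g J := by
        intro a ha c hc hac
        rw [← (hg a ha).2, ← (hg c hc).2, hac]
      have hcard : (J.image g).card = J.card := Finset.card_image_of_injOn hginj
      have hsub : J.image g ⊆ W.filter (fun x => S.b x ∈ J) := by
        intro a ha
        rw [mem_image] at ha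
        obtain ⟨j, hj, rfl⟩ := ha
        rw [mem_filter]
        exact ⟨(hg j hj).1, by rw [(hg j hj).2]; exact hj⟩
      have h1 := S.girth (J.image g) (hsub.trans ((Finset.filter_subset _ _).trans hW)) (by omega)
      have h2 := S.mono hsub
      omega)
  have hfb : ∀ j ∈ J₀, f j ∈ W ∧ S.b (f j) = j := by
    intro j hj
    have := hf1 j hj
    simpa [mem_filter] using this
  have hinj : Set.InjOn f J₀ := by
    intro a ha c hc hac
    rw [← (hfb a ha).2, ← (hfb c hc).2, hac]
  refine ⟨J₀.image f, ?_, ?_, Finset.card_image_of_injOn hinj, ?_, hf2⟩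
  · intro a ha
    rw [mem_image] at ha
    obtain ⟨j, hj, rfl⟩ := ha
    exact (hfb j hj).1
  · intro a ha
    rw [mem_image] at ha
    obtain ⟨j, hj, rfl⟩ := ha
    rw [(hfb j hj).2]; exact hj
  · intro a ha c hc hac
    rw [Finset.mem_coe, mem_image] at ha hc
    obtain ⟨j, hj, rfl⟩ := ha
    obtain ⟨j', hj', rfl⟩ := hc
    rw [(hfb j hj).2, (hfb j' hj').2] at hac
    rw [hac]

/-- full criterion -/
lemma crit_full [Nonempty α] (S : Setting α k) {W : Finset α} (hW : W ⊆ S.E)
    (hne : ∀ j, ∃ x ∈ W, S.b x = j) (hr : k ≤ S.r W)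
    (hl : ∀ l, k ≤ S.r (W.filter (fun x => S.b x ≠ l)) + 1) :
    ∃ T ⊆ W, S.TB T := by
  obtain ⟨Q, hQ, _, hQc, hQi, hQr⟩ := S.crit univ hW (fun j _ => hne j) (by
    intro J _ hJ
    by_cases hJk : J.card = k
    · have : J = univ := by
        rw [← Finset.card_eq_iff_eq_univ, Fintype.card_fin]; exact hJk
      subst this
      simp only [mem_univ, filter_true]
      simpa using hr
    · have hJ2 : J.card ≤ k := by
        have := Finset.card_le_univ J
        simpa using this
      have hex : ∃ l, l ∉ J := by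
        by_contra hcon
        push Not at hcon
        have : J = univ := Finset.eq_univ_iff_forall.mpr hcon
        rw [this] at hJk
        simp at hJk
      obtain ⟨l, hlJ⟩ := hex
      have hJe : J = univ.erase l := by
        apply Finset.eq_of_subset_of_card_le
        · intro j hj
          rw [mem_erase]
          exact ⟨fun h => hlJ (h ▸ hj), mem_univ _⟩
        · rw [Finset.card_erase_of_mem (mem_univ _), Finset.card_univ, Fintype.card_fin]
          omega
      have h3 : W.filter (fun x => S.b x ∈ J) = W.filter (fun x => S.b x ≠ l) := by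
        apply Finset.filter_congr
        intro x _
        rw [hJe, mem_erase]
        simp
      rw [h3]
      have := hl l
      omega)
  rw [Finset.card_univ, Fintype.card_fin] at hQc hQr
  exact ⟨Q, hQ, hQ.trans hW, hQc, hQi, le_antisymm (S.r_le (hQ.trans hW)) hQr⟩

/-- criterion for the blocks other than `i` -/
lemma crit_erase [Nonempty α] (S : Setting α k) (i : Fin k) {W : Finset α} (hW : W ⊆ S.E)
    (hWi : ∀ x ∈ W, S.b x ≠ i)
    (hne : ∀ j, j ≠ i → ∃ x ∈ W, S.b x = j) (hr : k ≤ S.r W + 1) :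
    ∃ Q ⊆ W, Q.card + 1 = k ∧ Set.InjOn S.b Q ∧ k ≤ S.r Q + 1 := by
  have hk : (univ.erase i : Finset (Fin k)).card + 1 = k := by
    rw [Finset.card_erase_add_one (mem_univ _), Finset.card_univ, Fintype.card_fin]
  obtain ⟨Q, hQ, _, hQc, hQi, hQr⟩ := S.crit (univ.erase i) hW
    (fun j hj => hne j (Finset.mem_erase.mp hj).1) (by
    intro J hJ hJk
    have hJe : J = univ.erase i := by
      apply Finset.eq_of_subset_of_card_le hJ
      omega
    have h3 : W.filter (fun x => S.b x ∈ J) = W := by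
      rw [Finset.filter_eq_self]
      intro x hx
      rw [hJe, mem_erase]
      exact ⟨hWi x hx, mem_univ _⟩
    rw [h3, hJe]
    omega)
  exact ⟨Q, hQ, by omega, hQi, by omega⟩

lemma TB.exists_block {S : Setting α k} {T : Finset α} (hT : S.TB T) (j : Fin k) :
    ∃ x ∈ T, S.b x = j := by
  have h1 : (T.image S.b).card = k := by
    rw [Finset.card_image_of_injOn hT.2.2.1, hT.2.1]
  have h2 : T.image S.b = univ := by
    rw [← Finset.card_eq_iff_eq_univ, Fintype.card_fin]; exact h1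
  have h3 : j ∈ T.image S.b := by rw [h2]; exact mem_univ _
  rw [mem_image] at h3
  obtain ⟨x, hx, hxj⟩ := h3
  exact ⟨x, hx, hxj⟩

lemma TB.block_card {S : Setting α k} {T : Finset α} (hT : S.TB T) (j : Fin k) :
    (T.filter (fun x => S.b x = j)).card = 1 := by
  obtain ⟨x, hx, hxj⟩ := hT.exists_block j
  rw [Finset.card_eq_one]
  refine ⟨x, ?_⟩
  ext a
  simp only [mem_filter, mem_singleton]
  constructor
  · rintro ⟨ha, hb⟩
    exact hT.2.2.1 ha hx (hb.trans hxj.symm)
  · rintro rfl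
    exact ⟨hx, hxj⟩

/-- families of disjoint transversal bases -/
structure Packing (S : Setting α k) (𝒯 : Finset (Finset α)) : Prop where
  tb : ∀ T ∈ 𝒯, S.TB T
  disj : ∀ T ∈ 𝒯, ∀ T' ∈ 𝒯, T ≠ T' → Disjoint T T'

/-- the uncovered elements -/
def U (S : Setting α k) (𝒯 : Finset (Finset α)) : Finset α := S.E \ 𝒯.biUnion id

lemma U_sub (S : Setting α k) (𝒯 : Finset (Finset α)) : S.U 𝒯 ⊆ S.E := Finset.sdiff_subset

lemma disjoint_U (S : Setting α k) {𝒯 : Finset (Finset α)} {T : Finset α} (hT : T ∈ 𝒯) :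
    Disjoint T (S.U 𝒯) := by
  rw [Finset.disjoint_left]
  intro x hx hxU
  simp only [U, mem_sdiff, mem_biUnion, id] at hxU
  exact hxU.2 ⟨T, hT, hx⟩

lemma Packing.block_card {S : Setting α k} {𝒯 : Finset (Finset α)} (h : S.Packing 𝒯) (j : Fin k) :
    ((S.U 𝒯).filter (fun x => S.b x = j)).card + 𝒯.card = k := by
  have h1 : (𝒯.biUnion (fun T => T.filter (fun x => S.b x = j))).card = 𝒯.card := by
    rw [Finset.card_biUnion]
    · rw [Finset.sum_congr rfl (fun T hT => (h.tb T hT).block_card j)]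
      simp
    · intro T hT T' hT' hne
      exact Finset.disjoint_of_subset_left (Finset.filter_subset _ _)
        (Finset.disjoint_of_subset_right (Finset.filter_subset _ _) (h.disj T hT T' hT' hne))
  have h2 : S.E.filter (fun x => S.b x = j) = (S.U 𝒯).filter (fun x => S.b x = j) ∪
      𝒯.biUnion (fun T => T.filter (fun x => S.b x = j)) := by
    ext a
    simp only [mem_filter, mem_union, mem_biUnion, U, mem_sdiff, id]
    constructor
    · rintro ⟨ha, hb⟩
      by_cases hex : ∃ T ∈ 𝒯, a ∈ T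
      · obtain ⟨T, hT, haT⟩ := hex
        exact Or.inr ⟨T, hT, haT, hb⟩
      · exact Or.inl ⟨⟨ha, hex⟩, hb⟩
    · rintro (⟨⟨ha, _⟩, hb⟩ | ⟨T, hT, haT, hb⟩)
      · exact ⟨ha, hb⟩
      · exact ⟨(h.tb T hT).1 haT, hb⟩
  have h3 := S.P_card j
  rw [h2, Finset.card_union_of_disjoint, h1] at h3
  · exact h3
  · rw [Finset.disjoint_left]
    intro x hx hx2
    simp only [mem_filter, mem_biUnion, U, mem_sdiff, id] at hx hx2
    obtain ⟨T, hT, hxT, _⟩ := hx2
    exact hx.1.2 ⟨T, hT, hxT⟩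

/-- maximum packings -/
def MaxP (S : Setting α k) (𝒯 : Finset (Finset α)) : Prop :=
  S.Packing 𝒯 ∧ ∀ 𝒯', S.Packing 𝒯' → 𝒯'.card ≤ 𝒯.card

lemma exists_max (S : Setting α k) : ∃ 𝒯, S.MaxP 𝒯 := by
  classical
  have hne : (S.E.powerset.powerset.filter (fun 𝒯 => S.Packing 𝒯)).Nonempty := by
    refine ⟨∅, ?_⟩
    simp only [mem_filter, mem_powerset, empty_subset, true_and]
    exact ⟨by simp, by simp⟩
  obtain ⟨𝒯, h𝒯, hmax⟩ := Finset.exists_max_image _ Finset.card hne
  rw [mem_filter] at h𝒯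
  refine ⟨𝒯, h𝒯.2, ?_⟩
  intro 𝒯' h'
  apply hmax
  rw [mem_filter]
  refine ⟨?_, h'⟩
  rw [mem_powerset]
  intro T hT
  rw [mem_powerset]
  exact (h'.tb T hT).1

lemma MaxP.noTB {S : Setting α k} {𝒯 : Finset (Finset α)} (h : S.MaxP 𝒯) (hk : 0 < k)
    {T : Finset α} (hT : S.TB T) (hTU : T ⊆ S.U 𝒯) : False := by
  have hne : T.Nonempty := Finset.card_pos.mp (by rw [hT.2.1]; exact hk)
  have hTd : ∀ T' ∈ 𝒯, Disjoint T T' := by
    intro T' hT'
    exact (Finset.disjoint_of_subset_right hTU (S.disjoint_U hT')).symm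
  have hTn : T ∉ 𝒯 := by
    intro hTm
    have := hTd T hTm
    rw [disjoint_self] at this
    exact hne.ne_empty this
  have hp : S.Packing (insert T 𝒯) := by
    constructor
    · intro T' hT'
      rw [mem_insert] at hT'
      rcases hT' with rfl | hT'
      · exact hT
      · exact h.1.tb T' hT'
    · intro A hA B hB hAB
      rw [mem_insert] at hA hB
      rcases hA with rfl | hA
      · rcases hB with rfl | hB
        · exact absurd rfl hAB
        · exact hTd B hB
      · rcases hB with rfl | hB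
        · exact (hTd A hA).symm
        · exact h.1.disj A hA B hB hAB
  have := h.2 _ hp
  rw [Finset.card_insert_of_notMem hTn] at this
  omega

lemma MaxP.swap {S : Setting α k} {𝒯 : Finset (Finset α)} (h : S.MaxP 𝒯) (hk : 0 < k)
    {T T' : Finset α} (hT : T ∈ 𝒯) (hT' : S.TB T') (hsub : T' ⊆ T ∪ S.U 𝒯) :
    ∃ 𝒯', S.MaxP 𝒯' ∧ 𝒯'.card = 𝒯.card ∧ S.U 𝒯' = (T ∪ S.U 𝒯) \ T' := by
  have hne : T'.Nonempty := Finset.card_pos.mp (by rw [hT'.2.1]; exact hk)
  have hd : ∀ A ∈ 𝒯.erase T, Disjoint T' A := by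
    intro A hA
    rw [mem_erase] at hA
    apply Finset.disjoint_of_subset_left hsub
    rw [Finset.disjoint_union_left]
    exact ⟨h.1.disj T hT A hA.2 (Ne.symm hA.1), (S.disjoint_U hA.2).symm⟩
  have hn : T' ∉ 𝒯.erase T := by
    intro hTm
    have := hd T' hTm
    rw [disjoint_self] at this
    exact hne.ne_empty this
  have hc : (insert T' (𝒯.erase T)).card = 𝒯.card := by
    rw [Finset.card_insert_of_notMem hn, Finset.card_erase_add_one hT]
  have hp : S.Packing (insert T' (𝒯.erase T)) := by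
    constructor
    · intro A hA
      rw [mem_insert] at hA
      rcases hA with rfl | hA
      · exact hT'
      · exact h.1.tb A (Finset.mem_of_mem_erase hA)
    · intro A hA B hB hAB
      rw [mem_insert] at hA hB
      rcases hA with rfl | hA
      · rcases hB with rfl | hB
        · exact absurd rfl hAB
        · exact hd B hB
      · rcases hB with rfl | hB
        · exact (hd A hA).symm
        · exact h.1.disj A (Finset.mem_of_mem_erase hA) B (Finset.mem_of_mem_erase hB) hAB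
  refine ⟨insert T' (𝒯.erase T), ⟨hp, fun 𝒯'' h'' => by rw [hc]; exact h.2 _ h''⟩, hc, ?_⟩
  ext a
  simp only [U, mem_sdiff, mem_biUnion, mem_insert, mem_erase, id, mem_union]
  constructor
  · rintro ⟨ha, hna⟩
    have h1 : a ∉ T' := fun h1 => hna ⟨T', Or.inl rfl, h1⟩
    refine ⟨?_, h1⟩
    by_cases haT : a ∈ T
    · exact Or.inl haT
    · right
      refine ⟨ha, ?_⟩
      rintro ⟨A, hA, haA⟩
      by_cases hAT : A = T
      · exact haT (hAT ▸ haA)
      · exact hna ⟨A, Or.inr ⟨hAT, hA⟩, haA⟩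
  · rintro ⟨ha, hna⟩
    rcases ha with ha | ⟨ha, hna2⟩
    · refine ⟨(h.1.tb T hT).1 ha, ?_⟩
      rintro ⟨A, hA, haA⟩
      rcases hA with rfl | ⟨hAT, hA⟩
      · exact hna haA
      · exact (Finset.disjoint_left.mp (h.1.disj T hT A hA (Ne.symm hAT))) ha haA
    · refine ⟨ha, ?_⟩
      rintro ⟨A, hA, haA⟩
      rcases hA with rfl | ⟨hAT, hA⟩
      · exact hna haA
      · exact hna2 ⟨A, hA, haA⟩

lemma MaxP.noTwo {S : Setting α k} {𝒯 : Finset (Finset α)} (h : S.MaxP 𝒯) (hk : 0 < k)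
    {T T1 T2 : Finset α} (hT : T ∈ 𝒯) (h1 : S.TB T1) (h2 : S.TB T2) (hd : Disjoint T1 T2)
    (hs1 : T1 ⊆ T ∪ S.U 𝒯) (hs2 : T2 ⊆ T ∪ S.U 𝒯) : False := by
  obtain ⟨𝒯', hm, _, hU⟩ := h.swap hk hT h1 hs1
  apply hm.noTB hk h2
  rw [hU]
  intro a ha
  rw [mem_sdiff]
  exact ⟨hs2 ha, fun h3 => Finset.disjoint_left.mp hd h3 ha⟩

/-- number of elements of `U` in the blocks of `J` -/
lemma cardJ {S : Setting α k} {𝒯 : Finset (Finset α)} (h : S.Packing 𝒯) (hq : 𝒯.card + 2 ≤ k)
    (J : Finset (Fin k)) : 2 * J.card ≤ ((S.U 𝒯).filter (fun x => S.b x ∈ J)).card := by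
  rw [Finset.card_eq_sum_card_fiberwise (f := S.b) (t := J) (by
    intro x hx
    rw [Finset.mem_coe, mem_filter] at hx
    exact hx.2)]
  calc 2 * J.card = ∑ j ∈ J, 2 := by rw [Finset.sum_const, smul_eq_mul, mul_comm]
    _ ≤ _ := by
      apply Finset.sum_le_sum
      intro j hj
      have h1 := h.block_card j
      have h2 : (((S.U 𝒯).filter (fun x => S.b x ∈ J)).filter (fun x => S.b x = j))
          = (S.U 𝒯).filter (fun x => S.b x = j) := by
        ext a
        simp only [mem_filter]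
        constructor
        · rintro ⟨⟨ha, _⟩, hb⟩; exact ⟨ha, hb⟩
        · rintro ⟨ha, hb⟩; exact ⟨⟨ha, by rw [hb]; exact hj⟩, hb⟩
      rw [h2]
      omega

lemma card_E (S : Setting α k) : S.E.card = k * k := by
  rw [Finset.card_eq_sum_card_fiberwise (f := S.b) (t := univ) (by
    intro x _; exact Finset.mem_coe.mpr (mem_univ _))]
  rw [Finset.sum_congr rfl (fun j _ => S.P_card j)]
  simp

/-- counting the elements outside `F` -/
lemma count {S : Setting α k} {𝒯 : Finset (Finset α)} (_h : S.Packing 𝒯) (F : Finset α)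
    (c : ℕ) (hc : ∀ T ∈ 𝒯, (T \ F).card ≤ c) :
    k * k ≤ F.card + ((S.U 𝒯) \ F).card + c * 𝒯.card := by
  rw [← S.card_E]
  have hsub : S.E ⊆ F ∪ (((S.U 𝒯) \ F) ∪ 𝒯.biUnion (fun T => T \ F)) := by
    intro a ha
    simp only [mem_union, mem_sdiff, mem_biUnion, U, id]
    by_cases haF : a ∈ F
    · exact Or.inl haF
    · right
      by_cases hex : ∃ T ∈ 𝒯, a ∈ T
      · obtain ⟨T, hT, haT⟩ := hex
        exact Or.inr ⟨T, hT, haT, haF⟩
      · exact Or.inl ⟨⟨ha, hex⟩, haF⟩
  have h1 := Finset.card_le_card hsub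
  have h2 := Finset.card_union_le F (((S.U 𝒯) \ F) ∪ 𝒯.biUnion (fun T => T \ F))
  have h3 := Finset.card_union_le ((S.U 𝒯) \ F) (𝒯.biUnion (fun T => T \ F))
  have h4 : (𝒯.biUnion (fun T => T \ F)).card ≤ c * 𝒯.card := by
    refine Finset.card_biUnion_le.trans ?_
    calc ∑ T ∈ 𝒯, (T \ F).card ≤ ∑ _T ∈ 𝒯, c := Finset.sum_le_sum hc
      _ = c * 𝒯.card := by rw [Finset.sum_const, smul_eq_mul, mul_comm]
  omega

end Setting

end Pool.Agent.Helper55.Rota
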