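import Mathlib
import Pool.Agent.Helper55.RotaSetting

set_option autoImplicit false

namespace Pool.Agent.Helper55.Rota

open Finset

variable {α : Type} [DecidableEq α] {k : ℕ}

namespace Setting

lemma TB.r_erase {S : Setting α k} {T : Finset α} (hT : S.TB T) {x : α} (hx : x ∈ T) :
    S.r (T.erase x) + 1 = k := by
  have h1 := S.insert_le (T.erase x) x
  rw [Finset.insert_erase hx, hT.2.2.2] at h1
  have h2 := S.le_card (T.erase x)
  have h3 := Finset.card_erase_add_one hx
  have h4 := hT.2.1
  omega

/-- existence of an element of `U` in a given block -/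
lemma exists_U {S : Setting α k} {𝒯 : Finset (Finset α)} (h : S.Packing 𝒯) (hq : 𝒯.card + 2 ≤ k)
    (j : Fin k) : ∃ x ∈ S.U 𝒯, S.b x = j := by
  have h1 := h.block_card j
  have h2 : 0 < ((S.U 𝒯).filter (fun x => S.b x = j)).card := by omega
  obtain ⟨x, hx⟩ := Finset.card_pos.mp h2
  rw [mem_filter] at hx
  exact ⟨x, hx.1, hx.2⟩

lemma exists_U_ne {S : Setting α k} {𝒯 : Finset (Finset α)} (h : S.Packing 𝒯) (hq : 𝒯.card + 2 ≤ k)
    (j : Fin k) (z : α) : ∃ x ∈ S.U 𝒯, S.b x = j ∧ x ≠ z := by
  have h1 := h.block_card j
  have h2 : 1 < ((S.U 𝒯).filter (fun x => S.b x = j)).card := by omega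
  obtain ⟨x, hx, hxz⟩ := Finset.exists_mem_ne h2 z
  rw [mem_filter] at hx
  exact ⟨x, hx.1, hx.2, hxz⟩

lemma card_ne {S : Setting α k} {𝒯 : Finset (Finset α)} (h : S.Packing 𝒯) (hq : 𝒯.card + 2 ≤ k)
    (l : Fin k) : 2 * k ≤ ((S.U 𝒯).filter (fun x => S.b x ≠ l)).card + 2 := by
  have h1 := cardJ h hq (univ.erase l)
  have h2 : (univ.erase l : Finset (Fin k)).card + 1 = k := by
    rw [Finset.card_erase_add_one (mem_univ _), Finset.card_univ, Fintype.card_fin]
  have h3 : (S.U 𝒯).filter (fun x => S.b x ∈ univ.erase l) = (S.U 𝒯).filter (fun x => S.b x ≠ l) := by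
    apply Finset.filter_congr
    intro x _
    simp
  rw [h3] at h1
  omega

lemma card_ne_ne {S : Setting α k} {𝒯 : Finset (Finset α)} (h : S.Packing 𝒯) (hq : 𝒯.card + 2 ≤ k)
    {l i : Fin k} (hli : l ≠ i) :
    2 * k ≤ ((S.U 𝒯).filter (fun x => S.b x ≠ l ∧ S.b x ≠ i)).card + 4 := by
  have h1 := cardJ h hq ((univ.erase l).erase i)
  have h2 : (univ.erase l : Finset (Fin k)).card + 1 = k := by
    rw [Finset.card_erase_add_one (mem_univ _), Finset.card_univ, Fintype.card_fin]
  have h4 : ((univ.erase l).erase i : Finset (Fin k)).card + 1 = (univ.erase l : Finset (Fin k)).card :=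
    Finset.card_erase_add_one (by rw [mem_erase]; exact ⟨hli.symm, mem_univ _⟩)
  have h3 : (S.U 𝒯).filter (fun x => S.b x ∈ (univ.erase l).erase i)
      = (S.U 𝒯).filter (fun x => S.b x ≠ l ∧ S.b x ≠ i) := by
    apply Finset.filter_congr
    intro x _
    simp only [mem_erase, mem_univ, and_true]
    tauto
  rw [h3] at h1
  omega

/-- Case A1: all `U` minus a block have rank at least `k - 1` -/
lemma caseA1 [Nonempty α] (S : Setting α k) (hk : 3 ≤ k) {𝒯 : Finset (Finset α)} (hmax : S.MaxP 𝒯)
    (hq : 𝒯.card + 2 ≤ k)
    (hall : ∀ l, k ≤ S.r ((S.U 𝒯).filter (fun x => S.b x ≠ l)) + 1) : False := by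
  have hk0 : 0 < k := by omega
  set U := S.U 𝒯 with hU
  have hUE : U ⊆ S.E := S.U_sub 𝒯
  -- rank of U
  have hrU : S.r U + 1 ≤ k := by
    by_contra hcon
    obtain ⟨T, hTU, hT⟩ := S.crit_full hUE (fun j => exists_U hmax.1 hq j) (by omega) hall
    exact hmax.noTB hk0 hT hTU
  have hrU2 : k ≤ S.r U + 1 := by
    have := hall ⟨0, hk0⟩
    have h2 := S.mono (Finset.filter_subset (fun x => S.b x ≠ ⟨0, hk0⟩) U)
    omega
  -- the hyperplane
  set H := S.E.filter (fun x => S.r (insert x U) + 1 ≤ k) with hH
  have hrH : S.r H + 1 ≤ k := by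
    have h1 := S.union_of_span U H (by
      intro z hz
      simp only [hH, mem_filter] at hz
      omega)
    have h2 := S.mono (subset_union_right : H ⊆ U ∪ H)
    omega
  have hHE : H ⊆ S.E := Finset.filter_subset _ _
  have hUH : U ⊆ H := by
    intro u hu
    simp only [hH, mem_filter]
    refine ⟨hUE hu, ?_⟩
    rw [Finset.insert_eq_of_mem hu]; exact hrU
  have hclaim : ∀ T ∈ 𝒯, (T \ H).card ≤ 1 := by
    intro T hT
    have hTB := hmax.1.tb T hT
    have hTU := S.disjoint_U hT
    by_contra hcon
    push Not at hcon
    obtain ⟨x, hx, y, hy, hxy⟩ := Finset.one_lt_card.mp hcon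
    rw [mem_sdiff] at hx hy
    have hxr : k ≤ S.r (insert x U) := by
      by_contra h1
      exact hx.2 (by simp only [hH, mem_filter]; exact ⟨hTB.1 hx.1, by omega⟩)
    have hyr : k ≤ S.r (insert y U) := by
      by_contra h1
      exact hy.2 (by simp only [hH, mem_filter]; exact ⟨hTB.1 hy.1, by omega⟩)
    have hxU : x ∉ U := fun h => Finset.disjoint_left.mp hTU hx.1 h
    have hbxy : S.b x ≠ S.b y := fun h => hxy (hTB.2.2.1 hx.1 hy.1 h)
    have hTe := hTB.r_erase hx.1
    -- validity of the partial transversals
    have hvalid : ∀ Q ⊆ U.filter (fun z => S.b z ≠ S.b x), Q.card + 1 = k → Set.InjOn S.b Q →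
        k ≤ S.r Q + 1 → ∀ u ∈ U, u ∉ Q → S.b u ≠ S.b y → S.r (insert u (T.erase x)) + 1 ≤ k := by
      intro Q hQ hQc hQi hQr u hu huQ hub
      have hQU : Q ⊆ U := hQ.trans (Finset.filter_subset _ _)
      have hxQ : x ∉ Q := fun h => hxU (hQU h)
      have hT1 : S.TB (insert x Q) := by
        refine ⟨?_, ?_, ?_, ?_⟩
        · apply Finset.insert_subset (hTB.1 hx.1) (hQU.trans hUE)
        · rw [Finset.card_insert_of_notMem hxQ]; exact hQc
        · rw [Finset.coe_insert, Set.injOn_insert (by simpa using hxQ)]
          refine ⟨hQi, ?_⟩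
          rintro ⟨z, hz, hz2⟩
          have := hQ hz
          rw [mem_filter] at this
          exact this.2 hz2
        · apply le_antisymm (S.r_le (Finset.insert_subset (hTB.1 hx.1) (hQU.trans hUE)))
          have := S.add_gain_insert hQU x
          omega
      set W := (T.erase x) ∪ (U \ Q) with hW
      have hWE : W ⊆ S.E := Finset.union_subset ((Finset.erase_subset _ _).trans hTB.1)
        (Finset.sdiff_subset.trans hUE)
      have hWno : ¬ ∃ T2 ⊆ W, S.TB T2 := by
        rintro ⟨T2, hT2, hT2b⟩
        apply hmax.noTwo hk0 hT hT1 hT2b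
        · rw [Finset.disjoint_left]
          intro z hz hz2
          have hz3 := hT2 hz2
          rw [mem_insert] at hz
          simp only [hW, mem_union, mem_erase, mem_sdiff] at hz3
          rcases hz with rfl | hz
          · rcases hz3 with hz3 | hz3
            · exact hz3.1 rfl
            · exact hxU hz3.1
          · rcases hz3 with hz3 | hz3
            · exact Finset.disjoint_left.mp hTU hz3.2 (hQU hz)
            · exact hz3.2 hz
        · apply Finset.insert_subset
          · exact mem_union_left _ hx.1
          · exact hQU.trans subset_union_right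
        · refine hT2.trans ?_
          apply Finset.union_subset_union (Finset.erase_subset _ _) Finset.sdiff_subset
      have hfail : S.r W + 1 ≤ k ∨ ∃ l, S.r (W.filter (fun z => S.b z ≠ l)) + 2 ≤ k := by
        by_contra hcon2
        push Not at hcon2
        apply hWno
        apply S.crit_full hWE
        · intro j
          by_cases hj : j = S.b x
          · obtain ⟨z, hz, hzj⟩ := exists_U hmax.1 hq j
            refine ⟨z, ?_, hzj⟩
            simp only [hW, mem_union, mem_sdiff]
            right
            refine ⟨hz, ?_⟩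
            intro hzQ
            have := hQ hzQ
            rw [mem_filter] at this
            exact this.2 (hzj.trans hj)
          · obtain ⟨z, hz, hzj⟩ := hTB.exists_block j
            refine ⟨z, ?_, hzj⟩
            simp only [hW, mem_union, mem_erase]
            left
            exact ⟨fun h => hj (by rw [← hzj, h]), hz⟩
        · omega
        · intro l
          have := hcon2.2 l
          omega
      rcases hfail with hfail | ⟨l, hl⟩
      · have h1 : insert u (T.erase x) ⊆ W := by
          apply Finset.insert_subset
          · simp only [hW, mem_union, mem_sdiff]; exact Or.inr ⟨hu, huQ⟩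
          · exact subset_union_left
        have := S.mono h1
        omega
      · by_cases hlx : l = S.b x
        · exfalso
          have h1 : T.erase x ⊆ W.filter (fun z => S.b z ≠ l) := by
            intro z hz
            rw [mem_filter]
            refine ⟨mem_union_left _ hz, ?_⟩
            intro h2
            rw [mem_erase] at hz
            exact hz.1 (hTB.2.2.1 hz.2 hx.1 (h2.trans hlx))
          have := S.mono h1
          omega
        · by_cases hly : l = S.b y
          · -- rank of T minus x, y
            have hyTx : y ∈ T.erase x := by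
              rw [mem_erase]; exact ⟨Ne.symm hxy, hy.1⟩
            have h1 : insert u ((T.erase x).erase y) ⊆ W.filter (fun z => S.b z ≠ l) := by
              apply Finset.insert_subset
              · rw [mem_filter]
                refine ⟨?_, by rw [hly]; exact hub⟩
                simp only [hW, mem_union, mem_sdiff]; exact Or.inr ⟨hu, huQ⟩
              · intro z hz
                rw [mem_filter]
                refine ⟨mem_union_left _ (Finset.mem_of_mem_erase hz), ?_⟩
                intro h2
                rw [mem_erase, mem_erase] at hz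
                exact hz.1 (hTB.2.2.1 hz.2.2 hy.1 (h2.trans hly))
            have h2 := S.mono h1
            have h3 := S.insert_le (insert u ((T.erase x).erase y)) y
            have h4 : insert y (insert u ((T.erase x).erase y)) = insert u (T.erase x) := by
              rw [Finset.insert_comm, Finset.insert_erase hyTx]
            rw [h4] at h3
            omega
          · exfalso
            have h1 : insert y ((U \ Q).filter (fun z => S.b z ≠ l)) ⊆ W.filter (fun z => S.b z ≠ l) := by
              apply Finset.insert_subset
              · rw [mem_filter]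
                refine ⟨mem_union_left _ ?_, fun h => hly h.symm⟩
                rw [mem_erase]; exact ⟨Ne.symm hxy, hy.1⟩
              · apply Finset.filter_subset_filter
                exact subset_union_right
            have h2 := S.mono h1
            have h3 : (U \ Q).filter (fun z => S.b z ≠ l) ⊆ U := (Finset.filter_subset _ _).trans Finset.sdiff_subset
            have h4 := S.add_gain_insert h3 y
            -- size
            have h5 : k ≤ ((U \ Q).filter (fun z => S.b z ≠ l)).card + 1 := by
              have e1 : 2 * k ≤ (U.filter (fun z => S.b z ≠ l)).card + 2 := card_ne hmax.1 hq l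
              have e2 : U.filter (fun z => S.b z ≠ l) ⊆ (U \ Q).filter (fun z => S.b z ≠ l) ∪ Q := by
                intro z hz
                rw [mem_filter] at hz
                simp only [mem_union, mem_filter, mem_sdiff]
                by_cases hzQ : z ∈ Q
                · exact Or.inr hzQ
                · exact Or.inl ⟨⟨hz.1, hzQ⟩, hz.2⟩
              have e3 := (Finset.card_le_card e2).trans (Finset.card_union_le _ _)
              omega
            have h6 : k ≤ S.r ((U \ Q).filter (fun z => S.b z ≠ l)) + 2 := by
              have := S.girth_ge (h3.trans hUE) (c := k - 2) (by omega) (by omega)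
              omega
            omega
    -- the set of elements of U spanned by T - x
    set UK := U.filter (fun u => S.r (insert u (T.erase x)) + 1 ≤ k) with hUK
    have hUKU : UK ⊆ U := Finset.filter_subset _ _
    have hrUK : S.r UK + 2 ≤ k := by
      have h1 := S.union_of_span (T.erase x) UK (by
        intro z hz
        simp only [hUK, mem_filter] at hz
        omega)
      have h2 : insert y UK ⊆ T.erase x ∪ UK := by
        apply Finset.insert_subset
        · apply mem_union_left; rw [mem_erase]; exact ⟨Ne.symm hxy, hy.1⟩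
        · exact subset_union_right
      have h3 := S.mono h2
      have h4 := S.add_gain_insert hUKU y
      omega
    -- a valid Q in W when W is good
    have hexQ : ∀ W ⊆ U.filter (fun z => S.b z ≠ S.b x), (∀ j, j ≠ S.b x → ∃ z ∈ W, S.b z = j) →
        k ≤ S.r W + 1 → ∃ Q ⊆ W, Q.card + 1 = k ∧ Set.InjOn S.b Q ∧ k ≤ S.r Q + 1 := by
      intro W hW hne hr
      apply S.crit_erase (S.b x) (hW.trans ((Finset.filter_subset _ _).trans hUE))
      · intro z hz
        have := hW hz
        rw [mem_filter] at this
        exact this.2
      · exact hne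
      · exact hr
    have hu : ∃ u ∈ U, S.b u ≠ S.b y ∧ u ∉ UK := by
      by_contra hcon2
      push Not at hcon2
      have h1 : U.filter (fun z => S.b z ≠ S.b y) ⊆ UK := by
        intro z hz
        rw [mem_filter] at hz
        exact hcon2 z hz.1 hz.2
      have h2 := S.mono h1
      have h3 := hall (S.b y)
      omega
    obtain ⟨u, huU, huy, huK⟩ := hu
    -- elements outside UK are not in block x and are essential
    have hess : ∀ w ∈ U, S.b w ≠ S.b y → w ∉ UK →
        S.b w ≠ S.b x ∧ S.r ((U.filter (fun z => S.b z ≠ S.b x)).erase w) + 2 ≤ k := by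
      intro w hwU hwy hwK
      have hwr : k ≤ S.r (insert w (T.erase x)) := by
        by_contra h1
        exact hwK (by simp only [hUK, mem_filter]; exact ⟨hwU, by omega⟩)
      constructor
      · intro hwx
        obtain ⟨Q, hQ, hQc, hQi, hQr⟩ := hexQ (U.filter (fun z => S.b z ≠ S.b x)) (Finset.Subset.refl _)
          (by
            intro j hj
            obtain ⟨z, hz, hzj⟩ := exists_U hmax.1 hq j
            exact ⟨z, by rw [mem_filter]; exact ⟨hz, by rw [hzj]; exact hj⟩, hzj⟩) (hall _)
        have := hvalid Q hQ hQc hQi hQr w hwU (by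
          intro h
          have := hQ h
          rw [mem_filter] at this
          exact this.2 hwx) hwy
        omega
      · by_contra h1
        obtain ⟨Q, hQ, hQc, hQi, hQr⟩ := hexQ ((U.filter (fun z => S.b z ≠ S.b x)).erase w)
          (Finset.erase_subset _ _)
          (by
            intro j hj
            obtain ⟨z, hz, hzj, hzw⟩ := exists_U_ne hmax.1 hq j w
            exact ⟨z, by rw [mem_erase, mem_filter]; exact ⟨hzw, hz, by rw [hzj]; exact hj⟩, hzj⟩)
          (by omega)
        have := hvalid Q (hQ.trans (Finset.erase_subset _ _)) hQc hQi hQr w hwU (by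
          intro h
          have := hQ h
          rw [mem_erase] at this
          exact this.1 rfl) hwy
        omega
    obtain ⟨hux, hur⟩ := hess u huU huy huK
    -- uniqueness of u
    have huniq : ∀ w ∈ U, S.b w ≠ S.b y → w ∉ UK → w = u := by
      intro w hwU hwy hwK
      by_contra hwu
      obtain ⟨hwx, hwr⟩ := hess w hwU hwy hwK
      have h1 := S.submod ((U.filter (fun z => S.b z ≠ S.b x)).erase w)
        ((U.filter (fun z => S.b z ≠ S.b x)).erase u)
      have h2 : (U.filter (fun z => S.b z ≠ S.b x)) ⊆
          ((U.filter (fun z => S.b z ≠ S.b x)).erase w) ∪ ((U.filter (fun z => S.b z ≠ S.b x)).erase u) := by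
        intro z hz
        rw [mem_union, mem_erase, mem_erase]
        by_cases hzw : z = w
        · right; exact ⟨by rw [hzw]; exact hwu, hz⟩
        · left; exact ⟨hzw, hz⟩
      have h3 := S.mono h2
      have h4 : (((U.filter (fun z => S.b z ≠ S.b x)).erase w).erase u) ⊆
          ((U.filter (fun z => S.b z ≠ S.b x)).erase w) ∩ ((U.filter (fun z => S.b z ≠ S.b x)).erase u) := by
        intro z hz
        rw [mem_inter]
        rw [mem_erase] at hz
        refine ⟨hz.2, ?_⟩
        rw [mem_erase]
        exact ⟨hz.1, Finset.mem_of_mem_erase hz.2⟩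
      have h5 := S.mono h4
      have h6 : 2 * k ≤ (U.filter (fun z => S.b z ≠ S.b x)).card + 2 := card_ne hmax.1 hq (S.b x)
      have h7 : (U.filter (fun z => S.b z ≠ S.b x)).card ≤
          (((U.filter (fun z => S.b z ≠ S.b x)).erase w).erase u).card + 2 := by
        have e1 := Finset.pred_card_le_card_erase (s := (U.filter (fun z => S.b z ≠ S.b x)).erase w) (a := u)
        have e2 := Finset.pred_card_le_card_erase (s := U.filter (fun z => S.b z ≠ S.b x)) (a := w)
        omega
      have h8 := S.girth_ge (X := ((U.filter (fun z => S.b z ≠ S.b x)).erase w).erase u)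
        ((Finset.erase_subset _ _).trans ((Finset.erase_subset _ _).trans
          ((Finset.filter_subset _ _).trans hUE))) (c := k - 2) (by omega) (by omega)
      have h9 := hall (S.b x)
      omega
    -- final contradiction
    have hB : (U.filter (fun z => S.b z ≠ S.b y)).erase u ⊆ UK := by
      intro z hz
      rw [mem_erase, mem_filter] at hz
      by_contra hzK
      exact hz.1 (huniq z hz.2.1 hz.2.2 hzK)
    have hrB := S.mono hB
    have h1 := S.submod ((U.filter (fun z => S.b z ≠ S.b x)).erase u)
        ((U.filter (fun z => S.b z ≠ S.b y)).erase u)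
    have h2 : U.filter (fun z => S.b z ≠ S.b u) ⊆
        ((U.filter (fun z => S.b z ≠ S.b x)).erase u) ∪ ((U.filter (fun z => S.b z ≠ S.b y)).erase u) := by
      intro z hz
      rw [mem_filter] at hz
      rw [mem_union, mem_erase, mem_erase, mem_filter, mem_filter]
      have hzu : z ≠ u := fun h => hz.2 (by rw [h])
      by_cases hzx : S.b z = S.b x
      · right; exact ⟨hzu, hz.1, by rw [hzx]; exact hbxy⟩
      · left; exact ⟨hzu, hz.1, hzx⟩
    have h3 := S.mono h2
    have h4 : (U.filter (fun z => S.b z ≠ S.b x ∧ S.b z ≠ S.b y)).erase u ⊆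
        ((U.filter (fun z => S.b z ≠ S.b x)).erase u) ∩ ((U.filter (fun z => S.b z ≠ S.b y)).erase u) := by
      intro z hz
      rw [mem_erase, mem_filter] at hz
      rw [mem_inter, mem_erase, mem_erase, mem_filter, mem_filter]
      exact ⟨⟨hz.1, hz.2.1, hz.2.2.1⟩, ⟨hz.1, hz.2.1, hz.2.2.2⟩⟩
    have h5 := S.mono h4
    have h6 : 2 * k ≤ (U.filter (fun z => S.b z ≠ S.b x ∧ S.b z ≠ S.b y)).card + 4 :=
      card_ne_ne hmax.1 hq hbxy
    have h7 := Finset.pred_card_le_card_erase
      (s := U.filter (fun z => S.b z ≠ S.b x ∧ S.b z ≠ S.b y)) (a := u)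
    have h8 := S.girth_ge (X := (U.filter (fun z => S.b z ≠ S.b x ∧ S.b z ≠ S.b y)).erase u)
        ((Finset.erase_subset _ _).trans ((Finset.filter_subset _ _).trans hUE))
        (c := k - 2) (by omega) (by omega)
    have h9 := hall (S.b u)
    omega
  have hcount := count hmax.1 H 1 hclaim
  have hUH0 : (S.U 𝒯 \ H).card = 0 := by
    rw [Finset.card_eq_zero, Finset.sdiff_eq_empty_iff_subset]
    exact hUH
  have hdens := S.dens H hHE
  have h1 : k * S.r H ≤ k * (k - 1) := Nat.mul_le_mul_left _ (by omega)
  have h2 : k * (k - 1) + k = k * k := by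
    obtain ⟨k', rfl⟩ : ∃ k', k = k' + 1 := ⟨k - 1, by omega⟩
    simp only [Nat.add_sub_cancel]
    ring
  omega

end Setting

end Pool.Agent.Helper55.Rota
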