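import Mathlib
import Pool.Agent.Helper55.RotaCases

set_option autoImplicit false

namespace Pool.Agent.Helper55.Rota

open Finset

variable {α : Type} [DecidableEq α] {k : ℕ}

namespace Setting

/-- counting contradiction for a flat of rank `k - 2` -/
lemma count_flat (S : Setting α k) (hk : 3 ≤ k) {𝒯 : Finset (Finset α)} (hmax : S.MaxP 𝒯)
    (hq : 𝒯.card + 2 ≤ k) (l : Fin k)
    (hl : S.r ((S.U 𝒯).filter (fun x => S.b x ≠ l)) + 2 ≤ k)
    (hT : ∀ T ∈ 𝒯, (T \ S.E.filter (fun x => S.r (insert x ((S.U 𝒯).filter (fun x => S.b x ≠ l))) + 2 ≤ k)).card ≤ 2) :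
    False := by
  set V := (S.U 𝒯).filter (fun x => S.b x ≠ l) with hV
  set F := S.E.filter (fun x => S.r (insert x V) + 2 ≤ k) with hF
  have hVE : V ⊆ S.E := (Finset.filter_subset _ _).trans (S.U_sub 𝒯)
  have hFE : F ⊆ S.E := Finset.filter_subset _ _
  have hcV : 2 * k ≤ V.card + 2 := card_ne hmax.1 hq l
  have hrV : k ≤ S.r V + 2 := by
    have := S.girth_ge hVE (c := k - 2) (by omega) (by omega)
    omega
  have hrF : S.r F + 2 ≤ k := by
    have h1 := S.union_of_span V F (by
      intro z hz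
      simp only [hF, mem_filter] at hz
      omega)
    have h2 := S.mono (subset_union_right : F ⊆ V ∪ F)
    omega
  have hcount := count hmax.1 F 2 hT
  have hU0 : (S.U 𝒯 \ F).card + 𝒯.card ≤ k := by
    have h1 : S.U 𝒯 \ F ⊆ (S.U 𝒯).filter (fun x => S.b x = l) := by
      intro z hz
      rw [mem_sdiff] at hz
      rw [mem_filter]
      refine ⟨hz.1, ?_⟩
      by_contra hzl
      apply hz.2
      simp only [hF, mem_filter]
      refine ⟨S.U_sub 𝒯 hz.1, ?_⟩
      have hzV : z ∈ V := by rw [hV, mem_filter]; exact ⟨hz.1, hzl⟩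
      rw [Finset.insert_eq_of_mem hzV]
      exact hl
    have h2 := Finset.card_le_card h1
    have h3 := hmax.1.block_card l
    omega
  have hdens := S.dens F hFE
  have h1 : k * S.r F ≤ k * (k - 2) := Nat.mul_le_mul_left _ (by omega)
  have h2 : k * (k - 2) + 2 * k = k * k := by
    obtain ⟨k', rfl⟩ : ∃ k', k = k' + 2 := ⟨k - 2, by omega⟩
    simp only [Nat.add_sub_cancel]
    ring
  omega

/-- two transversal bases from distinct representatives -/
lemma sdr_false (S : Setting α k) (hk : 3 ≤ k) {𝒯 : Finset (Finset α)} (hmax : S.MaxP 𝒯)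
    (hq : 𝒯.card + 2 ≤ k) (l : Fin k)
    (hl : S.r ((S.U 𝒯).filter (fun x => S.b x ≠ l)) + 2 ≤ k)
    {T : Finset α} (hT : T ∈ 𝒯) {x y a c : α} (hx : x ∈ T) (hy : y ∈ T) (hxy : x ≠ y)
    (hxl : S.b x ≠ l) (hyl : S.b y ≠ l)
    (ha : a ∈ T ∪ S.U 𝒯) (hc : c ∈ T ∪ S.U 𝒯) (hal : S.b a = l) (hcl : S.b c = l) (hac : a ≠ c)
    (hra : k ≤ S.r (insert a (insert x ((S.U 𝒯).filter (fun x => S.b x ≠ l)))))
    (hrc : k ≤ S.r (insert c (insert y ((S.U 𝒯).filter (fun x => S.b x ≠ l))))) : False := by
  have hk0 : 0 < k := by omega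
  have hTB := hmax.1.tb T hT
  have hTU := S.disjoint_U hT
  set V := (S.U 𝒯).filter (fun x => S.b x ≠ l) with hV
  have hVE : V ⊆ S.E := (Finset.filter_subset _ _).trans (S.U_sub 𝒯)
  have hTUE : T ∪ S.U 𝒯 ⊆ S.E := Finset.union_subset hTB.1 (S.U_sub 𝒯)
  have hbxy : S.b x ≠ S.b y := fun h => hxy (hTB.2.2.1 hx hy h)
  -- two distinct representatives in each block
  have hg : ∀ p : Fin k, ∃ g h : α, g ∈ S.U 𝒯 ∧ h ∈ S.U 𝒯 ∧ S.b g = p ∧ S.b h = p ∧ h ≠ g := by
    intro p
    obtain ⟨g, hg, hgp⟩ := exists_U hmax.1 hq p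
    obtain ⟨h, hh, hhp, hne⟩ := exists_U_ne hmax.1 hq p g
    exact ⟨g, h, hg, hh, hgp, hhp, hne⟩
  choose g1 g2 hg1 hg2 hb1 hb2 hne12 using hg
  -- general construction
  have hcons : ∀ (g : Fin k → α) (w v : α), (∀ p, g p ∈ S.U 𝒯) → (∀ p, S.b (g p) = p) →
      w ∈ T ∪ S.U 𝒯 → v ∈ T → S.b w = l → S.b v ≠ l →
      k ≤ S.r (insert w (insert v V)) →
      S.TB (univ.image (fun p => if p = l then w else if p = S.b v then v else g p)) ∧
      univ.image (fun p => if p = l then w else if p = S.b v then v else g p) ⊆ T ∪ S.U 𝒯 := by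
    intro g w v hgU hgb hw hv hwl hvl hr
    set f : Fin k → α := fun p => if p = l then w else if p = S.b v then v else g p with hf
    have hfb : ∀ p, S.b (f p) = p := by
      intro p
      simp only [hf]
      split_ifs with h1 h2
      · rw [hwl, h1]
      · rw [h2]
      · exact hgb p
    have hfm : ∀ p, f p ∈ T ∪ S.U 𝒯 := by
      intro p
      simp only [hf]
      split_ifs with h1 h2
      · exact hw
      · exact mem_union_left _ hv
      · exact mem_union_right _ (hgU p)
    have hfinj : Function.Injective f := by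
      intro p p' hpp
      rw [← hfb p, ← hfb p', hpp]
    have hsub : univ.image f ⊆ T ∪ S.U 𝒯 := by
      intro z hz
      rw [mem_image] at hz
      obtain ⟨p, _, rfl⟩ := hz
      exact hfm p
    refine ⟨⟨hsub.trans hTUE, ?_, ?_, ?_⟩, hsub⟩
    · rw [Finset.card_image_of_injective _ hfinj, Finset.card_univ, Fintype.card_fin]
    · intro z hz z' hz' hzz
      rw [Finset.mem_coe, mem_image] at hz hz'
      obtain ⟨p, _, rfl⟩ := hz
      obtain ⟨p', _, rfl⟩ := hz'
      rw [hfb, hfb] at hzz
      rw [hzz]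
    · apply le_antisymm (S.r_le (hsub.trans hTUE))
      -- the part in V
      set Q := ((univ.erase l).erase (S.b v)).image g with hQ
      have hQV : Q ⊆ V := by
        intro z hz
        rw [hQ, mem_image] at hz
        obtain ⟨p, hp, rfl⟩ := hz
        rw [mem_erase, mem_erase] at hp
        rw [hV, mem_filter]
        exact ⟨hgU p, by rw [hgb]; exact hp.2.1⟩
      have hQc : Q.card + 2 = k := by
        rw [hQ, Finset.card_image_of_injOn]
        · have e1 : ((univ.erase l).erase (S.b v) : Finset (Fin k)).card + 1 = (univ.erase l : Finset (Fin k)).card :=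
            Finset.card_erase_add_one (by rw [mem_erase]; exact ⟨hvl, mem_univ _⟩)
          have e2 : (univ.erase l : Finset (Fin k)).card + 1 = k := by
            rw [Finset.card_erase_add_one (mem_univ _), Finset.card_univ, Fintype.card_fin]
          omega
        · intro p _ p' _ hpp
          rw [← hgb p, ← hgb p', hpp]
      have hQr := S.girth Q (hQV.trans hVE) (by omega)
      have h1 : insert w (insert v Q) ⊆ univ.image f := by
        intro z hz
        rw [mem_insert, mem_insert] at hz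
        rw [mem_image]
        rcases hz with rfl | rfl | hz
        · exact ⟨l, mem_univ _, by simp [hf]⟩
        · refine ⟨S.b z, mem_univ _, ?_⟩
          simp only [hf, if_neg hvl, if_true]
        · rw [hQ, mem_image] at hz
          obtain ⟨p, hp, rfl⟩ := hz
          rw [mem_erase, mem_erase] at hp
          refine ⟨p, mem_univ _, ?_⟩
          simp only [hf]
          rw [if_neg hp.2.1, if_neg hp.1]
      have h2 := S.mono h1
      have h3 := S.add_gain hQV {w, v}
      have e1 : V ∪ {w, v} = insert w (insert v V) := by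
        ext z; simp only [mem_union, mem_insert, mem_singleton]; tauto
      have e2 : Q ∪ {w, v} = insert w (insert v Q) := by
        ext z; simp only [mem_union, mem_insert, mem_singleton]; tauto
      rw [e1, e2] at h3
      omega
  obtain ⟨hTB1, hs1⟩ := hcons g1 a x hg1 hb1 ha hx hal hxl hra
  obtain ⟨hTB2, hs2⟩ := hcons g2 c y hg2 hb2 hc hy hcl hyl hrc
  apply hmax.noTwo hk0 hT hTB1 hTB2 _ hs1 hs2
  rw [Finset.disjoint_left]
  intro z hz1 hz2
  rw [mem_image] at hz1 hz2
  obtain ⟨p, _, hp⟩ := hz1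
  obtain ⟨p', _, hp'⟩ := hz2
  -- equal blocks
  have hb1' : S.b z = p := by
    rw [← hp]
    split_ifs with h1 h2
    · rw [hal, h1]
    · rw [h2]
    · exact hb1 p
  have hb2' : S.b z = p' := by
    rw [← hp']
    split_ifs with h1 h2
    · rw [hcl, h1]
    · rw [h2]
    · exact hb2 p'
  have hpp : p = p' := hb1'.symm.trans hb2'
  subst hpp
  have hxU : ∀ w ∈ S.U 𝒯, x ≠ w := fun w hw h => Finset.disjoint_left.mp hTU hx (h ▸ hw)
  have hyU : ∀ w ∈ S.U 𝒯, y ≠ w := fun w hw h => Finset.disjoint_left.mp hTU hy (h ▸ hw)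
  by_cases h1 : p = l
  · rw [if_pos h1] at hp hp'
    exact hac (hp.trans hp'.symm)
  · rw [if_neg h1] at hp hp'
    by_cases h2 : p = S.b x
    · rw [if_pos h2] at hp
      have h3 : p ≠ S.b y := fun h => hbxy (h2.symm.trans h)
      rw [if_neg h3] at hp'
      exact hxU _ (hg2 p) (hp.trans hp'.symm)
    · rw [if_neg h2] at hp
      by_cases h3 : p = S.b y
      · rw [if_pos h3] at hp'
        exact hyU _ (hg1 p) (hp'.trans hp.symm)
      · rw [if_neg h3] at hp'
        exact hne12 p (hp'.trans hp.symm)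

/-- Case A2 -/
lemma caseA2 (S : Setting α k) (hk : 3 ≤ k) {𝒯 : Finset (Finset α)} (hmax : S.MaxP 𝒯)
    (hq : 𝒯.card + 2 ≤ k) (l : Fin k)
    (hl : S.r ((S.U 𝒯).filter (fun x => S.b x ≠ l)) + 2 ≤ k) (hrU : k ≤ S.r (S.U 𝒯)) : False := by
  have hk0 : 0 < k := by omega
  apply S.count_flat hk hmax hq l hl
  set V := (S.U 𝒯).filter (fun x => S.b x ≠ l) with hV
  set F := S.E.filter (fun x => S.r (insert x V) + 2 ≤ k) with hF
  have hVE : V ⊆ S.E := (Finset.filter_subset _ _).trans (S.U_sub 𝒯)
  have hVU : V ⊆ S.U 𝒯 := Finset.filter_subset _ _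
  have hcV : 2 * k ≤ V.card + 2 := card_ne hmax.1 hq l
  have hrV : k ≤ S.r V + 2 := by
    have := S.girth_ge hVE (c := k - 2) (by omega) (by omega)
    omega
  intro T hT
  have hTB := hmax.1.tb T hT
  have hTU := S.disjoint_U hT
  by_contra hcon
  push Not at hcon
  -- two elements outside F and outside block l
  have hcard1 : 1 < ((T \ F).filter (fun z => S.b z ≠ l)).card := by
    have h1 := Finset.card_filter_add_card_filter_not (s := T \ F) (fun z => S.b z ≠ l)
    have h2 : ((T \ F).filter (fun z => ¬ S.b z ≠ l)).card ≤ 1 := by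
      rw [← hTB.block_card l]
      apply Finset.card_le_card
      intro z hz
      rw [mem_filter, mem_sdiff] at hz
      rw [mem_filter]
      exact ⟨hz.1.1, not_not.mp hz.2⟩
    omega
  obtain ⟨x, hx, y, hy, hxy⟩ := Finset.one_lt_card.mp hcard1
  rw [mem_filter, mem_sdiff] at hx hy
  have hxr : k ≤ S.r (insert x V) + 1 := by
    by_contra h1
    exact hx.1.2 (by simp only [hF, mem_filter]; exact ⟨hTB.1 hx.1.1, by omega⟩)
  have hyr : k ≤ S.r (insert y V) + 1 := by
    by_contra h1
    exact hy.1.2 (by simp only [hF, mem_filter]; exact ⟨hTB.1 hy.1.1, by omega⟩)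
  -- representatives in U
  have hrep : ∀ z ∈ T, k ≤ S.r (insert z V) + 1 → ∃ a ∈ S.U 𝒯, S.b a = l ∧
      k ≤ S.r (insert a (insert z V)) := by
    intro z hz hzr
    by_contra hcon2
    push Not at hcon2
    have h0 : S.r (insert z V) ≤ S.r V + 1 := S.insert_le V z
    have h1 := S.union_of_span (insert z V) (S.U 𝒯) (by
      intro w hw
      by_cases hwl : S.b w = l
      · have := hcon2 w hw hwl; omega
      · have hwV : w ∈ V := by rw [hV, mem_filter]; exact ⟨hw, hwl⟩
        rw [Finset.insert_eq_of_mem (mem_insert_of_mem hwV)])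
    have h2 := S.mono (subset_union_right : S.U 𝒯 ⊆ insert z V ∪ S.U 𝒯)
    omega
  obtain ⟨a, haU, hal, har⟩ := hrep x hx.1.1 hxr
  obtain ⟨c, hcU, hcl, hcr⟩ := hrep y hy.1.1 hyr
  have hac : a = c := by
    by_contra hne
    exact S.sdr_false hk hmax hq l hl hT hx.1.1 hy.1.1 hxy hx.2 hy.2 (mem_union_right _ haU)
      (mem_union_right _ hcU) hal hcl hne har hcr
  subst hac
  have hno : ∀ z ∈ T, S.b z ≠ l → ∀ w ∈ T ∪ S.U 𝒯, S.b w = l → w ≠ a →
      S.r (insert w (insert z V)) + 1 ≤ k := by
    intro z hz hzl w hw hwl hwa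
    by_contra hcon2
    have hwr : k ≤ S.r (insert w (insert z V)) := by omega
    by_cases hzx : z = x
    · subst hzx
      exact S.sdr_false hk hmax hq l hl hT hz hy.1.1 hxy hzl hy.2 hw
        (mem_union_right _ haU) hwl hal hwa hwr hcr
    · exact S.sdr_false hk hmax hq l hl hT hx.1.1 hz (Ne.symm hzx) hx.2 hzl (mem_union_right _ haU)
        hw hal hwl (Ne.symm hwa) har hwr
  have hc1 : ∃ c1 ∈ S.U 𝒯, c1 ≠ a ∧ S.b c1 = l ∧ k ≤ S.r (insert c1 V) + 1 := by
    by_contra hcon2
    push Not at hcon2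
    have h1 := S.union_of_span V ((S.U 𝒯).erase a) (by
      intro w hw
      rw [mem_erase] at hw
      by_cases hwl : S.b w = l
      · have := hcon2 w hw.2 hw.1 hwl; omega
      · have hwV : w ∈ V := by rw [hV, mem_filter]; exact ⟨hw.2, hwl⟩
        rw [Finset.insert_eq_of_mem hwV])
    have h2 : S.U 𝒯 ⊆ insert a (V ∪ (S.U 𝒯).erase a) := by
      intro w hw
      rw [mem_insert, mem_union, mem_erase]
      by_cases hwa : w = a
      · exact Or.inl hwa
      · exact Or.inr (Or.inr ⟨hwa, hw⟩)
    have h3 := S.mono h2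
    have h4 := S.insert_le (V ∪ (S.U 𝒯).erase a) a
    omega
  obtain ⟨c1, hc1U, hc1a, hc1l, hc1r⟩ := hc1
  have hV1 := S.insert_le V c1
  have hspan : ∀ z ∈ T, S.r (insert z (insert c1 V)) ≤ S.r (insert c1 V) := by
    intro z hz
    by_cases hzl : S.b z = l
    · have hza : z ≠ a := fun h => Finset.disjoint_left.mp hTU hz (h ▸ haU)
      have e1 := hno x hx.1.1 hx.2 z (mem_union_left _ hz) hzl hza
      have e2 := hno x hx.1.1 hx.2 c1 (mem_union_right _ hc1U) hc1l hc1a
      have e3 := S.union_of_span (insert x V) {z, c1} (by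
        intro w hw
        rw [mem_insert, mem_singleton] at hw
        rcases hw with rfl | rfl
        · omega
        · omega)
      have e4 : insert z (insert c1 V) ⊆ insert x V ∪ {z, c1} := by
        intro w hw
        simp only [mem_insert, mem_union, mem_singleton] at hw ⊢
        tauto
      have e5 := S.mono e4
      have e6 := S.insert_le V x
      omega
    · by_cases hzF : S.r (insert z V) + 2 ≤ k
      · have e1 := S.add_gain_insert (Finset.subset_insert c1 V) z
        omega
      · have e1 := hno z hz hzl c1 (mem_union_right _ hc1U) hc1l hc1a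
        rw [Finset.insert_comm]
        omega
  have h1 := S.union_of_span (insert c1 V) T hspan
  have h2 := S.mono (subset_union_right : T ⊆ insert c1 V ∪ T)
  have h3 := hTB.2.2.2
  omega

end Setting

end Pool.Agent.Helper55.Rota
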