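import Mathlib
import Pool.Agent.Helper55.RotaCases2

set_option autoImplicit false

namespace Pool.Agent.Helper55.Rota

open Finset

variable {α : Type} [DecidableEq α] {k : ℕ}

namespace Setting

/-- swapping one or two elements of a member of the packing with few elements in the flat `F` -/
lemma exchange (S : Setting α k) (hk : 3 ≤ k) {𝒯 : Finset (Finset α)} (hmax : S.MaxP 𝒯)
    (hq : 𝒯.card + 2 ≤ k) (l : Fin k)
    (hl : S.r ((S.U 𝒯).filter (fun x => S.b x ≠ l)) + 2 ≤ k)
    {T : Finset α} (hT : T ∈ 𝒯)
    (hTF : 2 < (T \ S.E.filter (fun x => S.r (insert x ((S.U 𝒯).filter (fun x => S.b x ≠ l))) + 2 ≤ k)).card) :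
    ∃ 𝒯', S.MaxP 𝒯' ∧ 𝒯'.card = 𝒯.card ∧ ∃ (x : α) (R : Finset α),
      R ⊆ (S.U 𝒯).filter (fun x => S.b x ≠ l) ∧ R.card ≤ 2 ∧
      (R.filter (fun z => S.b z ≠ S.b x)).card ≤ 1 ∧ (R.card ≤ 1 ∨ 5 ≤ k) ∧
      k ≤ S.r (insert x ((S.U 𝒯).filter (fun x => S.b x ≠ l))) + 1 ∧ S.b x ≠ l ∧
      insert x (S.U 𝒯 \ R) ⊆ S.U 𝒯' := by
  have hk0 : 0 < k := by omega
  set V := (S.U 𝒯).filter (fun x => S.b x ≠ l) with hV
  set F := S.E.filter (fun x => S.r (insert x V) + 2 ≤ k) with hF
  have hVE : V ⊆ S.E := (Finset.filter_subset _ _).trans (S.U_sub 𝒯)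
  have hVU : V ⊆ S.U 𝒯 := Finset.filter_subset _ _
  have hcV : 2 * k ≤ V.card + 2 := card_ne hmax.1 hq l
  have hrV : k ≤ S.r V + 2 := by
    have := S.girth_ge hVE (c := k - 2) (by omega) (by omega)
    omega
  have hTB := hmax.1.tb T hT
  have hTU := S.disjoint_U hT
  have hTE := hTB.1
  -- at most one x outside F with V inside the closure of T - x
  have hD : ∀ x ∈ T, ∀ y ∈ T, x ≠ y → (∀ v ∈ V, S.r (insert v (T.erase x)) + 1 ≤ k) →
      (∀ v ∈ V, S.r (insert v (T.erase y)) + 1 ≤ k) → False := by
    intro x hx y hy hxy hx2 hy2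
    have hyx : y ∈ T.erase x := by rw [mem_erase]; exact ⟨Ne.symm hxy, hy⟩
    set Y := (T.erase x).erase y with hY
    have hYc : Y.card + 2 = k := by
      have e1 := Finset.card_erase_add_one hx
      have e2 : Y.card + 1 = (T.erase x).card := Finset.card_erase_add_one hyx
      have e3 := hTB.2.1
      omega
    have hYE : Y ⊆ S.E := (Finset.erase_subset _ _).trans ((Finset.erase_subset _ _).trans hTE)
    have hYr := S.girth Y hYE (by omega)
    have hYr2 := S.le_card Y
    have h1 : ∀ v ∈ V, S.r (insert v Y) ≤ S.r Y := by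
      intro v hv
      have e1 := S.submod (insert v (T.erase x)) (insert v (T.erase y))
      have e2 : T ⊆ insert v (T.erase x) ∪ insert v (T.erase y) := by
        intro z hz
        rw [mem_union, mem_insert, mem_insert, mem_erase, mem_erase]
        by_cases hzx : z = x
        · right; right; exact ⟨by rw [hzx]; exact hxy, hz⟩
        · left; right; exact ⟨hzx, hz⟩
      have e3 : insert v Y ⊆ insert v (T.erase x) ∩ insert v (T.erase y) := by
        intro z hz
        rw [mem_insert, hY, mem_erase, mem_erase] at hz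
        rw [mem_inter, mem_insert, mem_insert, mem_erase, mem_erase]
        rcases hz with rfl | hz
        · exact ⟨Or.inl rfl, Or.inl rfl⟩
        · exact ⟨Or.inr ⟨hz.2.1, hz.2.2⟩, Or.inr ⟨hz.1, hz.2.2⟩⟩
      have e4 := S.mono e2
      have e5 := S.mono e3
      have e6 := hx2 v hv
      have e7 := hy2 v hv
      have e8 := hTB.2.2.2
      omega
    have h2 := S.union_of_span Y V h1
    have h3 : T \ F ⊆ {x, y} := by
      intro z hz
      rw [mem_sdiff] at hz
      by_contra hz2
      rw [mem_insert, mem_singleton] at hz2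
      push Not at hz2
      apply hz.2
      simp only [hF, mem_filter]
      refine ⟨hTE hz.1, ?_⟩
      have hzY : z ∈ Y := by rw [hY, mem_erase, mem_erase]; exact ⟨hz2.2, hz2.1, hz.1⟩
      have e1 : insert z V ⊆ Y ∪ V := by
        apply Finset.insert_subset (mem_union_left _ hzY) subset_union_right
      have e2 := S.mono e1
      omega
    have h4 := Finset.card_le_card h3
    have h5 : ({x, y} : Finset α).card ≤ 2 := Finset.card_le_two
    omega
  -- choose x
  have hcard1 : 1 < ((T \ F).filter (fun z => S.b z ≠ l)).card := by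
    have h1 := Finset.card_filter_add_card_filter_not (s := T \ F) (fun z => S.b z ≠ l)
    have h2 : ((T \ F).filter (fun z => ¬ S.b z ≠ l)).card ≤ 1 := by
      rw [← hTB.block_card l]
      apply Finset.card_le_card
      intro z hz
      rw [mem_filter, mem_sdiff] at hz
      rw [mem_filter]
      exact ⟨hz.1.1, not_not.mp hz.2⟩
    omega
  have hxex : ∃ x ∈ T, x ∉ F ∧ S.b x ≠ l ∧ ∃ v ∈ V, k ≤ S.r (insert v (T.erase x)) := by
    obtain ⟨x, hx, y, hy, hxy⟩ := Finset.one_lt_card.mp hcard1
    rw [mem_filter, mem_sdiff] at hx hy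
    by_contra hcon
    push Not at hcon
    apply hD x hx.1.1 y hy.1.1 hxy
    · intro v hv; have := hcon x hx.1.1 hx.1.2 hx.2 v hv; omega
    · intro v hv; have := hcon y hy.1.1 hy.1.2 hy.2 v hv; omega
  obtain ⟨x, hxT, hxF, hxl, v0, hv0V, hv0r⟩ := hxex
  have hxr : k ≤ S.r (insert x V) + 1 := by
    by_contra h1
    exact hxF (by simp only [hF, mem_filter]; exact ⟨hTE hxT, by omega⟩)
  have hTe := hTB.r_erase hxT
  by_cases hsingle : ∃ u ∈ S.U 𝒯, S.b u = S.b x ∧ k ≤ S.r (insert u (T.erase x))
  · -- single swap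
    obtain ⟨u, huU, hub, hur⟩ := hsingle
    have huT : u ∉ T := fun h => Finset.disjoint_left.mp hTU h huU
    have huTx : u ∉ T.erase x := fun h => huT (Finset.mem_of_mem_erase h)
    have hsubE : insert u (T.erase x) ⊆ S.E :=
      Finset.insert_subset (S.U_sub 𝒯 huU) ((Finset.erase_subset _ _).trans hTE)
    have hT' : S.TB (insert u (T.erase x)) := by
      refine ⟨hsubE, ?_, ?_, le_antisymm (S.r_le hsubE) hur⟩
      · rw [Finset.card_insert_of_notMem huTx, Finset.card_erase_add_one hxT, hTB.2.1]
      · rw [Finset.coe_insert, Set.injOn_insert (fun h => huTx (Finset.mem_coe.mp h))]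
        refine ⟨hTB.2.2.1.mono (Finset.coe_subset.mpr (Finset.erase_subset x T)), ?_⟩
        rintro ⟨z, hz, hz2⟩
        rw [Finset.mem_coe, mem_erase] at hz
        exact hz.1 (hTB.2.2.1 hz.2 hxT (hz2.trans hub))
    obtain ⟨𝒯', hm', hc', hU'⟩ := hmax.swap hk0 hT hT' (by
      apply Finset.insert_subset (mem_union_right _ huU)
      exact (Finset.erase_subset _ _).trans subset_union_left)
    refine ⟨𝒯', hm', hc', x, {u}, ?_, ?_, ?_, ?_, hxr, hxl, ?_⟩
    · rw [Finset.singleton_subset_iff, hV, mem_filter]
      exact ⟨huU, by rw [hub]; exact hxl⟩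
    · simp
    · refine (Finset.card_filter_le _ _).trans ?_
      simp
    · left; simp
    · rw [hU']
      apply Finset.insert_subset
      · rw [mem_sdiff, mem_insert, mem_erase]
        refine ⟨mem_union_left _ hxT, ?_⟩
        rintro (h | h)
        · exact huT (h ▸ hxT)
        · exact h.1 rfl
      · intro z hz
        rw [mem_sdiff, mem_singleton] at hz
        rw [mem_sdiff, mem_insert, mem_erase]
        refine ⟨mem_union_right _ hz.1, ?_⟩
        rintro (h | h)
        · exact hz.2 h
        · exact Finset.disjoint_left.mp hTU h.2 hz.1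
  · -- double swap
    push Not at hsingle
    have hsg : ∀ u ∈ S.U 𝒯, S.b u = S.b x → S.r (insert u (T.erase x)) + 1 ≤ k := by
      intro u hu hub
      have := hsingle u hu hub
      omega
    set VK := V.filter (fun v => S.r (insert v (T.erase x)) + 1 ≤ k) with hVK
    have hVKV : VK ⊆ V := Finset.filter_subset _ _
    have hrVK : S.r VK + 3 ≤ k := by
      by_contra hcon
      have h1 := S.union_of_span (T.erase x) VK (by
        intro z hz
        simp only [hVK, mem_filter] at hz
        omega)
      have h2 := S.add_gain_insert (subset_union_right : VK ⊆ T.erase x ∪ VK) v0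
      have h3 : insert v0 VK ⊆ V := Finset.insert_subset hv0V hVKV
      have h4 := S.mono h3
      have h5 : insert v0 (T.erase x) ⊆ insert v0 (T.erase x ∪ VK) :=
        Finset.insert_subset_insert _ subset_union_left
      have h6 := S.mono h5
      omega
    have hcVK : VK.card + 3 ≤ k := by
      by_contra hcon
      have := S.girth_ge (hVKV.trans hVE) (c := k - 2) (by omega) (by omega)
      omega
    obtain ⟨u0, hu0U, hu0b⟩ := exists_U hmax.1 hq (S.b x)
    set Z := (T.erase x).filter (fun z => S.b z ≠ l) with hZ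
    have hZc : Z.card + 2 = k := by
      have e1 : Z.card + ((T.erase x).filter (fun z => ¬ S.b z ≠ l)).card = (T.erase x).card :=
        Finset.card_filter_add_card_filter_not (s := T.erase x) (fun z => S.b z ≠ l)
      have e2 : ((T.erase x).filter (fun z => ¬ S.b z ≠ l)).card = 1 := by
        rw [← hTB.block_card l]
        congr 1
        ext z
        simp only [mem_filter, mem_erase, not_not]
        constructor
        · rintro ⟨⟨_, h1⟩, h2⟩; exact ⟨h1, h2⟩
        · rintro ⟨h1, h2⟩
          refine ⟨⟨?_, h1⟩, h2⟩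
          intro h3
          rw [h3] at h2
          exact hxl h2
      have e3 := Finset.card_erase_add_one hxT
      have e4 := hTB.2.1
      omega
    set Z1 := Z.filter (fun z => ∀ u ∈ S.U 𝒯, S.b u = S.b x → S.r (insert u ((T.erase x).erase z)) + 2 ≤ k) with hZ1
    set Z2 := Z.filter (fun z => ∀ v ∈ S.U 𝒯, S.b v = S.b z → S.r (insert v (T.erase x)) + 1 ≤ k) with hZ2
    have hZ1c : Z1.card ≤ 1 := by
      by_contra hcon
      push Not at hcon
      obtain ⟨z1, hz1, z2, hz2, hz12⟩ := Finset.one_lt_card.mp hcon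
      rw [hZ1, mem_filter, hZ, mem_filter] at hz1 hz2
      have e1 := hz1.2 u0 hu0U hu0b
      have e2 := hz2.2 u0 hu0U hu0b
      have e3 := S.submod (insert u0 ((T.erase x).erase z1)) (insert u0 ((T.erase x).erase z2))
      have e4 : T.erase x ⊆ insert u0 ((T.erase x).erase z1) ∪ insert u0 ((T.erase x).erase z2) := by
        intro z hz
        rw [mem_union, mem_insert, mem_insert, mem_erase, mem_erase (s := T.erase x)]
        by_cases hzx : z = z1
        · right; right; exact ⟨by rw [hzx]; exact hz12, hz⟩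
        · left; right; exact ⟨hzx, hz⟩
      have e5 : insert u0 (((T.erase x).erase z1).erase z2) ⊆
          insert u0 ((T.erase x).erase z1) ∩ insert u0 ((T.erase x).erase z2) := by
        intro z hz
        rw [mem_insert, mem_erase, mem_erase] at hz
        rw [mem_inter, mem_insert, mem_insert, mem_erase, mem_erase (s := T.erase x)]
        rcases hz with rfl | hz
        · exact ⟨Or.inl rfl, Or.inl rfl⟩
        · exact ⟨Or.inr ⟨hz.2.1, hz.2.2⟩, Or.inr ⟨hz.1, hz.2.2⟩⟩
      have e6 := S.mono e4
      have e7 := S.mono e5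
      have hz2' : z2 ∈ (T.erase x).erase z1 := by rw [mem_erase]; exact ⟨Ne.symm hz12, hz2.1.1⟩
      have hu0T : u0 ∉ ((T.erase x).erase z1).erase z2 := by
        intro h
        exact Finset.disjoint_left.mp hTU (Finset.mem_of_mem_erase (Finset.mem_of_mem_erase
          (Finset.mem_of_mem_erase h))) hu0U
      have e8 : (insert u0 (((T.erase x).erase z1).erase z2)).card + 2 = k := by
        rw [Finset.card_insert_of_notMem hu0T]
        have f1 := Finset.card_erase_add_one hxT
        have f2 := Finset.card_erase_add_one hz1.1.1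
        have f3 := Finset.card_erase_add_one hz2'
        have f4 := hTB.2.1
        omega
      have e9 := S.girth (insert u0 (((T.erase x).erase z1).erase z2)) (by
        apply Finset.insert_subset (S.U_sub 𝒯 hu0U)
        exact (Finset.erase_subset _ _).trans ((Finset.erase_subset _ _).trans
          ((Finset.erase_subset _ _).trans hTE))) (by omega)
      omega
    have hZ2c : 2 * Z2.card + 5 ≤ k := by
      have h1 := cardJ hmax.1 hq (insert (S.b x) (Z2.image S.b))
      have h2 : (insert (S.b x) (Z2.image S.b)).card = Z2.card + 1 := by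
        rw [Finset.card_insert_of_notMem, Finset.card_image_of_injOn]
        · apply hTB.2.2.1.mono
          intro z hz
          rw [Finset.mem_coe, hZ2, mem_filter, hZ, mem_filter] at hz
          exact Finset.mem_of_mem_erase hz.1.1
        · intro h
          rw [mem_image] at h
          obtain ⟨z, hz, hzx⟩ := h
          rw [hZ2, mem_filter, hZ, mem_filter, mem_erase] at hz
          exact hz.1.1.1 (hTB.2.2.1 hz.1.1.2 hxT hzx)
      have h3 : (S.U 𝒯).filter (fun w => S.b w ∈ insert (S.b x) (Z2.image S.b)) ⊆ VK := by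
        intro w hw
        rw [mem_filter, mem_insert, mem_image] at hw
        rw [hVK, mem_filter, hV, mem_filter]
        rcases hw.2 with hwx | ⟨z, hz, hzw⟩
        · exact ⟨⟨hw.1, by rw [hwx]; exact hxl⟩, hsg w hw.1 hwx⟩
        · rw [hZ2, mem_filter, hZ, mem_filter] at hz
          exact ⟨⟨hw.1, by rw [← hzw]; exact hz.1.2⟩, hz.2 w hw.1 hzw.symm⟩
      have h4 := Finset.card_le_card h3
      omega
    have hex : ∃ z ∈ Z, z ∉ Z1 ∧ z ∉ Z2 := by
      by_contra hcon
      push Not at hcon
      have h1 : Z ⊆ Z1 ∪ Z2 := by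
        intro z hz
        rw [mem_union]
        by_cases hz1 : z ∈ Z1
        · exact Or.inl hz1
        · exact Or.inr (hcon z hz hz1)
      have h2 := (Finset.card_le_card h1).trans (Finset.card_union_le _ _)
      omega
    obtain ⟨z, hzZ, hzZ1, hzZ2⟩ := hex
    have hzT' : z ∈ T.erase x ∧ S.b z ≠ l := by rw [hZ, mem_filter] at hzZ; exact hzZ
    have h1 : ∃ u ∈ S.U 𝒯, S.b u = S.b x ∧ k ≤ S.r (insert u ((T.erase x).erase z)) + 1 := by
      by_contra hcon
      push Not at hcon
      apply hzZ1
      rw [hZ1, mem_filter]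
      refine ⟨hzZ, ?_⟩
      intro u hu hub
      have := hcon u hu hub
      omega
    have h2 : ∃ v ∈ S.U 𝒯, S.b v = S.b z ∧ k ≤ S.r (insert v (T.erase x)) := by
      by_contra hcon
      push Not at hcon
      apply hzZ2
      rw [hZ2, mem_filter]
      refine ⟨hzZ, ?_⟩
      intro v hv hvb
      have := hcon v hv hvb
      omega
    obtain ⟨u, huU, hub, hur⟩ := h1
    obtain ⟨v, hvU, hvb, hvr⟩ := h2
    have hzT : z ∈ T := Finset.mem_of_mem_erase hzT'.1
    have hzx : z ≠ x := (Finset.mem_erase.mp hzT'.1).1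
    have hbzx : S.b z ≠ S.b x := fun h => hzx (hTB.2.2.1 hzT hxT h)
    have huT : u ∉ T := fun h => Finset.disjoint_left.mp hTU h huU
    have hvT : v ∉ T := fun h => Finset.disjoint_left.mp hTU h hvU
    have huv : u ≠ v := by
      intro h
      rw [h] at hub
      exact hbzx (hvb.symm.trans hub)
    set T0 := (T.erase x).erase z with hT0
    have hT0T : T0 ⊆ T := (Finset.erase_subset _ _).trans (Finset.erase_subset _ _)
    have huT0 : u ∉ T0 := fun h => huT (hT0T h)
    have hvT0 : v ∉ insert u T0 := by
      rw [mem_insert]; push Not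
      exact ⟨Ne.symm huv, fun h => hvT (hT0T h)⟩
    have hT''sub : insert v (insert u T0) ⊆ T ∪ S.U 𝒯 := by
      apply Finset.insert_subset (mem_union_right _ hvU)
      apply Finset.insert_subset (mem_union_right _ huU)
      exact hT0T.trans subset_union_left
    have hT''E : insert v (insert u T0) ⊆ S.E :=
      hT''sub.trans (Finset.union_subset hTE (S.U_sub 𝒯))
    have hT'' : S.TB (insert v (insert u T0)) := by
      refine ⟨hT''E, ?_, ?_, le_antisymm (S.r_le hT''E) ?_⟩
      · rw [Finset.card_insert_of_notMem hvT0, Finset.card_insert_of_notMem huT0]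
        have f1 := Finset.card_erase_add_one hxT
        have f2 : T0.card + 1 = (T.erase x).card := Finset.card_erase_add_one hzT'.1
        have f4 := hTB.2.1
        omega
      · rw [Finset.coe_insert, Set.injOn_insert (fun h => hvT0 (Finset.mem_coe.mp h)), Finset.coe_insert,
          Set.injOn_insert (fun h => huT0 (Finset.mem_coe.mp h))]
        refine ⟨⟨hTB.2.2.1.mono (Finset.coe_subset.mpr hT0T), ?_⟩, ?_⟩
        · rintro ⟨w, hw, hw2⟩
          rw [Finset.mem_coe, hT0, mem_erase, mem_erase] at hw
          exact hw.2.1 (hTB.2.2.1 hw.2.2 hxT (hw2.trans hub))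
        · rintro ⟨w, hw, hw2⟩
          rw [Set.mem_insert_iff, Finset.mem_coe] at hw
          rcases hw with rfl | hw
          · exact hbzx ((hw2.trans hvb).symm.trans hub)
          · rw [hT0, mem_erase, mem_erase] at hw
            exact hw.1 (hTB.2.2.1 hw.2.2 hzT (hw2.trans hvb))
      · have e1 : insert u T0 ⊆ insert u (T.erase x) :=
          Finset.insert_subset_insert _ (Finset.erase_subset _ _)
        have e2 := S.add_gain_insert e1 v
        have e3 := hsg u huU hub
        have e4 : insert v (T.erase x) ⊆ insert v (insert u (T.erase x)) :=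
          Finset.insert_subset_insert _ (Finset.subset_insert _ _)
        have e5 := S.mono e4
        omega
    obtain ⟨𝒯', hm', hc', hU'⟩ := hmax.swap hk0 hT hT'' hT''sub
    refine ⟨𝒯', hm', hc', x, {u, v}, ?_, Finset.card_le_two, ?_, ?_, hxr, hxl, ?_⟩
    · intro w hw
      rw [mem_insert, mem_singleton] at hw
      rw [hV, mem_filter]
      rcases hw with rfl | rfl
      · exact ⟨huU, by rw [hub]; exact hxl⟩
      · exact ⟨hvU, by rw [hvb]; exact hzT'.2⟩
    · have : ({u, v} : Finset α).filter (fun w => S.b w ≠ S.b x) ⊆ {v} := by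
        intro w hw
        rw [mem_filter, mem_insert, mem_singleton] at hw
        rw [mem_singleton]
        rcases hw.1 with h | h
        · exact absurd (by rw [h]; exact hub) hw.2
        · exact h
      exact (Finset.card_le_card this).trans (by simp)
    · right; omega
    · rw [hU']
      apply Finset.insert_subset
      · rw [mem_sdiff]
        refine ⟨mem_union_left _ hxT, ?_⟩
        intro h
        rw [mem_insert, mem_insert, hT0, mem_erase, mem_erase] at h
        rcases h with h | h | h
        · exact hvT (h ▸ hxT)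
        · exact huT (h ▸ hxT)
        · exact h.2.1 rfl
      · intro w hw
        rw [mem_sdiff, mem_insert, mem_singleton] at hw
        rw [mem_sdiff]
        refine ⟨mem_union_right _ hw.1, ?_⟩
        intro h
        rw [mem_insert, mem_insert] at h
        rcases h with h | h | h
        · exact hw.2 (Or.inr h)
        · exact hw.2 (Or.inl h)
        · exact Finset.disjoint_left.mp hTU (hT0T h) hw.1

/-- ranks after the exchange -/
lemma rank_after (S : Setting α k) (hk : 3 ≤ k) {𝒯 : Finset (Finset α)} (hmax : S.MaxP 𝒯)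
    (hq : 𝒯.card + 2 ≤ k) (l : Fin k)
    (hl : S.r ((S.U 𝒯).filter (fun x => S.b x ≠ l)) + 2 ≤ k)
    {x : α} {R W : Finset α}
    (hRV : R ⊆ (S.U 𝒯).filter (fun x => S.b x ≠ l)) (hR2 : R.card ≤ 2)
    (hR1 : (R.filter (fun z => S.b z ≠ S.b x)).card ≤ 1) (hR5 : R.card ≤ 1 ∨ 5 ≤ k)
    (hxr : k ≤ S.r (insert x ((S.U 𝒯).filter (fun x => S.b x ≠ l))) + 1) (hxl : S.b x ≠ l)
    (hW : insert x (S.U 𝒯 \ R) ⊆ W) :
    k ≤ S.r W + 1 ∧ (k ≤ S.r (S.U 𝒯) + 1 → ∀ p, k ≤ S.r (W.filter (fun z => S.b z ≠ p)) + 1) := by
  set V := (S.U 𝒯).filter (fun x => S.b x ≠ l) with hV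
  have hVE : V ⊆ S.E := (Finset.filter_subset _ _).trans (S.U_sub 𝒯)
  have hVU : V ⊆ S.U 𝒯 := Finset.filter_subset _ _
  have hcV : 2 * k ≤ V.card + 2 := card_ne hmax.1 hq l
  have hrV : k ≤ S.r V + 2 := by
    have := S.girth_ge hVE (c := k - 2) (by omega) (by omega)
    omega
  -- a subset of V of size at least k - 2 together with x has rank at least k - 1
  have hgain : ∀ X ⊆ V, k ≤ X.card + 2 → k ≤ S.r (insert x X) + 1 := by
    intro X hX hXc
    have h1 := S.girth_ge (hX.trans hVE) (c := k - 2) (by omega) (by omega)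
    have h2 := S.add_gain_insert hX x
    omega
  have hmain : ∀ p, p ≠ S.b x → k ≤ S.r (W.filter (fun z => S.b z ≠ p)) + 1 := by
    intro p hp
    have h1 : insert x ((V \ R).filter (fun z => S.b z ≠ p)) ⊆ W.filter (fun z => S.b z ≠ p) := by
      apply Finset.insert_subset
      · rw [mem_filter]
        exact ⟨hW (mem_insert_self _ _), Ne.symm hp⟩
      · intro z hz
        rw [mem_filter, mem_sdiff] at hz
        rw [mem_filter]
        refine ⟨hW (mem_insert_of_mem ?_), hz.2⟩
        rw [mem_sdiff]
        exact ⟨hVU hz.1.1, hz.1.2⟩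
    have h2 := S.mono h1
    have h3 := hgain ((V \ R).filter (fun z => S.b z ≠ p))
      ((Finset.filter_subset _ _).trans Finset.sdiff_subset) (by
        have e0 : V.filter (fun z => S.b z ≠ p) ⊆ (V \ R).filter (fun z => S.b z ≠ p) ∪ R := by
          intro z hz
          rw [mem_filter] at hz
          rw [mem_union, mem_filter, mem_sdiff]
          by_cases hzR : z ∈ R
          · exact Or.inr hzR
          · exact Or.inl ⟨⟨hz.1, hzR⟩, hz.2⟩
        have e1 := (Finset.card_le_card e0).trans (Finset.card_union_le _ _)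
        by_cases hpl : p = l
        · have e2 : V.filter (fun z => S.b z ≠ p) = V := by
            rw [Finset.filter_eq_self]
            intro z hz
            rw [hV, mem_filter] at hz
            rw [hpl]; exact hz.2
          rw [e2] at e1
          omega
        · have e2 : V.filter (fun z => S.b z ≠ p) = (S.U 𝒯).filter (fun z => S.b z ≠ l ∧ S.b z ≠ p) := by
            rw [hV, Finset.filter_filter]
          have e3 := card_ne_ne hmax.1 hq (Ne.symm hpl)
          rw [e2] at e1
          rcases hR5 with h5 | h5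
          · omega
          · omega)
    omega
  constructor
  · have h1 := hmain l (Ne.symm hxl)
    have h2 := S.mono (Finset.filter_subset (fun z => S.b z ≠ l) W)
    omega
  · intro hrU p
    by_cases hp : p = S.b x
    · -- p is the block of x
      set X := (V \ R).filter (fun z => S.b z ≠ p) with hX
      have hXV : X ⊆ V := (Finset.filter_subset _ _).trans Finset.sdiff_subset
      have hpl : l ≠ p := by rw [hp]; exact Ne.symm hxl
      have hXc : k ≤ X.card + 2 := by
        have e0 : V.filter (fun z => S.b z ≠ p) ⊆ X ∪ R.filter (fun z => S.b z ≠ S.b x) := by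
          intro z hz
          have hz1 := (Finset.mem_filter.mp hz).1
          have hz2 := (Finset.mem_filter.mp hz).2
          by_cases hzR : z ∈ R
          · exact mem_union_right _ (Finset.mem_filter.mpr ⟨hzR, by rw [← hp]; exact hz2⟩)
          · exact mem_union_left _ (Finset.mem_filter.mpr ⟨Finset.mem_sdiff.mpr ⟨hz1, hzR⟩, hz2⟩)
        have e1 := (Finset.card_le_card e0).trans (Finset.card_union_le _ _)
        have e2 : V.filter (fun z => S.b z ≠ p) = (S.U 𝒯).filter (fun z => S.b z ≠ l ∧ S.b z ≠ p) := by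
          rw [hV, Finset.filter_filter]
        have e3 := card_ne_ne hmax.1 hq hpl
        rw [e2] at e1
        omega
      have hXr := S.girth_ge (hXV.trans hVE) (c := k - 2) (by omega) (by omega)
      have h1 := S.add_gain hXV ((S.U 𝒯).filter (fun z => S.b z = l))
      have h2 : V ∪ (S.U 𝒯).filter (fun z => S.b z = l) = S.U 𝒯 := by
        ext z
        rw [mem_union, hV, mem_filter, mem_filter]
        tauto
      rw [h2] at h1
      have h3 : X ∪ (S.U 𝒯).filter (fun z => S.b z = l) ⊆ W.filter (fun z => S.b z ≠ p) := by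
        intro z hz
        rw [mem_filter]
        rcases Finset.mem_union.mp hz with hz | hz
        · have hz1 := Finset.mem_sdiff.mp (Finset.mem_filter.mp hz).1
          have hz2 := (Finset.mem_filter.mp hz).2
          exact ⟨hW (mem_insert_of_mem (by rw [mem_sdiff]; exact ⟨hVU hz1.1, hz1.2⟩)), hz2⟩
        · have hz1 := (Finset.mem_filter.mp hz).1
          have hz2 := (Finset.mem_filter.mp hz).2
          refine ⟨hW (mem_insert_of_mem (by
            rw [mem_sdiff]
            refine ⟨hz1, ?_⟩
            intro hzR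
            have := hRV hzR
            rw [hV, mem_filter] at this
            exact this.2 hz2)), by rw [hz2]; exact hpl⟩
      have h4 := S.mono h3
      omega
    · exact hmain p hp

/-- Case A3 -/
lemma caseA3 [Nonempty α] (S : Setting α k) (hk : 3 ≤ k) {𝒯 : Finset (Finset α)} (hmax : S.MaxP 𝒯)
    (hq : 𝒯.card + 2 ≤ k) (l : Fin k)
    (hl : S.r ((S.U 𝒯).filter (fun x => S.b x ≠ l)) + 2 ≤ k) (hrU : k ≤ S.r (S.U 𝒯) + 1) :
    False := by
  apply S.count_flat hk hmax hq l hl
  intro T hT
  by_contra hcon
  push Not at hcon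
  obtain ⟨𝒯', hm', hc', x, R, hRV, hR2, hR1, hR5, hxr, hxl, hW⟩ := S.exchange hk hmax hq l hl hT hcon
  obtain ⟨_, h2⟩ := S.rank_after hk hmax hq l hl hRV hR2 hR1 hR5 hxr hxl hW
  exact S.caseA1 hk hm' (by omega) (h2 hrU)

/-- all remaining cases -/
lemma caseAll [Nonempty α] (S : Setting α k) (hk : 3 ≤ k) {𝒯 : Finset (Finset α)} (hmax : S.MaxP 𝒯)
    (hq : 𝒯.card + 2 ≤ k) (hrU : k ≤ S.r (S.U 𝒯) + 1) : False := by
  by_cases hall : ∀ l, k ≤ S.r ((S.U 𝒯).filter (fun x => S.b x ≠ l)) + 1
  · exact S.caseA1 hk hmax hq hall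
  · push Not at hall
    obtain ⟨l, hl⟩ := hall
    exact S.caseA3 hk hmax hq l (by omega) hrU

/-- Case B -/
lemma caseB [Nonempty α] (S : Setting α k) (hk : 3 ≤ k) {𝒯 : Finset (Finset α)} (hmax : S.MaxP 𝒯)
    (hq : 𝒯.card + 2 ≤ k) (hrU : S.r (S.U 𝒯) + 2 ≤ k) : False := by
  have hk0 : 0 < k := by omega
  set l : Fin k := ⟨0, hk0⟩ with hldef
  have hl : S.r ((S.U 𝒯).filter (fun x => S.b x ≠ l)) + 2 ≤ k := by
    have := S.mono (Finset.filter_subset (fun x => S.b x ≠ l) (S.U 𝒯))
    omega
  apply S.count_flat hk hmax hq l hl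
  intro T hT
  by_contra hcon
  push Not at hcon
  obtain ⟨𝒯', hm', hc', x, R, hRV, hR2, hR1, hR5, hxr, hxl, hW⟩ := S.exchange hk hmax hq l hl hT hcon
  obtain ⟨h1, _⟩ := S.rank_after hk hmax hq l hl hRV hR2 hR1 hR5 hxr hxl hW
  exact S.caseAll hk hm' (by omega) h1

theorem main [Nonempty α] (S : Setting α k) : ∃ 𝒯, S.Packing 𝒯 ∧ k ≤ 𝒯.card + 1 := by
  by_cases hk3 : 3 ≤ k
  · obtain ⟨𝒯, hmax⟩ := S.exists_max
    refine ⟨𝒯, hmax.1, ?_⟩
    by_contra hcon
    by_cases hrU : k ≤ S.r (S.U 𝒯) + 1
    · exact S.caseAll hk3 hmax (by omega) hrU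
    · exact S.caseB hk3 hmax (by omega) (by omega)
  · by_cases hk2 : k = 2
    · subst hk2
      obtain ⟨T, _, hT⟩ := S.crit_full (W := S.E) (Finset.Subset.refl _)
        (by
          intro j
          have := S.P_card j
          have h2 : 0 < (S.E.filter (fun x => S.b x = j)).card := by omega
          obtain ⟨x, hx⟩ := Finset.card_pos.mp h2
          rw [mem_filter] at hx
          exact ⟨x, hx.1, hx.2⟩)
        (by rw [S.rE])
        (by
          intro l
          have h1 : ∃ j : Fin 2, j ≠ l := exists_ne l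
          obtain ⟨j, hj⟩ := h1
          have := S.P_card j
          have h2 : 0 < (S.E.filter (fun x => S.b x = j)).card := by omega
          obtain ⟨x, hx⟩ := Finset.card_pos.mp h2
          rw [mem_filter] at hx
          have h3 := S.loopless x hx.1
          have h4 : ({x} : Finset α) ⊆ S.E.filter (fun x => S.b x ≠ l) := by
            rw [Finset.singleton_subset_iff, mem_filter]
            exact ⟨hx.1, by rw [hx.2]; exact hj⟩
          have h5 := S.mono h4
          omega)
      refine ⟨{T}, ⟨?_, ?_⟩, by simp⟩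
      · intro T' hT'
        rw [mem_singleton] at hT'
        rw [hT']; exact hT
      · intro A hA B hB hAB
        rw [mem_singleton] at hA hB
        exact absurd (hA.trans hB.symm) hAB
    · exact ⟨∅, ⟨by simp, by simp⟩, by simp; omega⟩

end Setting

end Pool.Agent.Helper55.Rota
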